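import Mathlib
import Pool.Agent.W223.CV.Asm
import Pool.Agent.W125.CV.HT

/-!
# Vojta's inequality on arbitrary curves: statements of the parts

`A` is a Dedekind domain, finite over `ℚ[X]` (the coordinate ring of a smooth affine curve which
is finite over the affine line, by the function `t`).
-/

set_option autoImplicit false

namespace Pool.Agent.W223.AC

open Polynomial IsDedekindDomain NumberField

/-- the coordinate `t` -/
noncomputable def tt (A : Type) [CommRing A] [Algebra ℚ[X] A] : A := algebraMap ℚ[X] A X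

/-- the map `ℤ[X] → A` -/
noncomputable def psi (A : Type) [CommRing A] [Algebra ℚ[X] A] : ℤ[X] →+* A :=
  (algebraMap ℚ[X] A).comp (mapRingHom (Int.castRingHom ℚ))

/-- `y` is integral over `ℤ[t]` -/
def IntEl {A : Type} [CommRing A] [Algebra ℚ[X] A] (y : A) : Prop :=
  (psi A).IsIntegralElem y

/-- DIM: dimensions of quotients by powers. -/
def StmtDIM : Prop :=
  ∀ (k A : Type) [Field k] [CommRing A] [IsDedekindDomain A] [Algebra k A] (I : Ideal A),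
    I ≠ ⊥ → Module.Finite k (A ⧸ I) → ∀ m : ℕ, Module.Finite k (A ⧸ I ^ m) ∧
      Module.finrank k (A ⧸ I ^ m) ≤ m * Module.finrank k (A ⧸ I)

/-- FINQ: quotients are finite dimensional. -/
def StmtFINQ : Prop :=
  ∀ (A : Type) [CommRing A] [IsDomain A] [Algebra ℚ A] [Algebra ℚ[X] A] [IsScalarTower ℚ ℚ[X] A]
    [Module.Finite ℚ[X] A] [FaithfulSMul ℚ[X] A] (I : Ideal A), I ≠ ⊥ → Module.Finite ℚ (A ⧸ I)

/-- MULT: clearing denominators. -/
def StmtMULT : Prop :=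
  ∀ (A : Type) [CommRing A] [Algebra ℚ[X] A] [Module.Finite ℚ[X] A] (y : A),
    ∃ n : ℕ, n ≠ 0 ∧ IntEl ((n : A) * y)

/-- EX: functions with zeros of high order and small degree. -/
def StmtEX : Prop :=
  ∀ (A : Type) [CommRing A] [IsDedekindDomain A] [Algebra ℚ A] [Algebra ℚ[X] A]
    [IsScalarTower ℚ ℚ[X] A] [Module.Finite ℚ[X] A] [FaithfulSMul ℚ[X] A],
    ∃ ω : Fin (Module.finrank ℚ[X] A) → A, (∀ i, IntEl (ω i)) ∧
      ∀ (I : Ideal A), I ≠ ⊥ → ∀ m D : ℕ,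
        m * Module.finrank ℚ (A ⧸ I) < Module.finrank ℚ[X] A * (D + 1) →
        ∃ p : Fin (Module.finrank ℚ[X] A) → ℤ[X], (∀ i, (p i).natDegree ≤ D) ∧
          ∑ i, psi A (p i) * ω i ∈ I ^ m ∧ ∑ i, psi A (p i) * ω i ≠ 0

/-- LOC: integral elements have integral values. -/
def StmtLOC : Prop :=
  ∀ (A : Type) [CommRing A] [Algebra ℚ[X] A] (y : A), IntEl y →
    ∀ (L : Type) [Field L] [NumberField L] (φ : A →+* L) (v : HeightOneSpectrum (𝓞 L)),
      v.valuation L (φ (tt A)) ≤ 1 → v.valuation L (φ y) ≤ 1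

/-- LOCM: elements of `I ^ m` vanish to order `m` at the primes where the generators of `I`
vanish. -/
def StmtLOCM : Prop :=
  ∀ (A : Type) [CommRing A] [Algebra ℚ[X] A] [Module.Finite ℚ[X] A] (s : ℕ) (z : Fin s → A)
    (m : ℕ) (g : A), g ∈ Ideal.span (Set.range z) ^ m →
    ∃ M : ℕ, M ≠ 0 ∧ ∀ (L : Type) [Field L] [NumberField L] (φ : A →+* L)
      (v : HeightOneSpectrum (𝓞 L)), (M : 𝓞 L) ∉ v.asIdeal → v.valuation L (φ (tt A)) ≤ 1 →
      (∀ k, v.valuation L (φ (z k)) < 1) → v.valuation L (φ g) ≤ WithZero.exp (-(m : ℤ))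

/-- GROW: growth of integral elements. -/
def StmtGROW : Prop :=
  ∀ (A : Type) [CommRing A] [Algebra ℚ[X] A] (y : A), IntEl y →
    ∃ (c : ℕ) (K : ℝ), 1 ≤ K ∧ ∀ (L : Type) [Field L] [NumberField L] (φ : A →+* L),
      (∀ v : HeightOneSpectrum (𝓞 L),
        Pool.Agent.W125.CV.fv v (φ y) ≤ max (Pool.Agent.W125.CV.fv v (φ (tt A))) 1 ^ c) ∧
      ∀ w : InfinitePlace L, w (φ y) ≤ K * max (w (φ (tt A))) 1 ^ c

/-- HTG: heights of values. -/
def StmtHTG : Prop :=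
  ∀ (A : Type) [CommRing A] [Algebra ℚ[X] A] (N : ℕ) (ω : Fin N → A), (∀ i, IntEl (ω i)) →
    ∃ c : ℕ, ∀ (D : ℕ) (p : Fin N → ℤ[X]), (∀ i, (p i).natDegree ≤ D) →
      ∃ C : ℝ, 0 ≤ C ∧ ∀ (L : Type) [Field L] [NumberField L] (φ : A →+* L),
        Real.log (Height.mulHeight₁ (φ (∑ i, psi A (p i) * ω i))) ≤
          ((D : ℝ) + c) * Real.log (Height.mulHeight₁ (φ (tt A))) + Module.finrank ℚ L * C

/-- SUMN: primes at which `y` vanishes to order `m`. -/
def StmtSUMN : Prop :=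
  ∀ (L : Type) [Field L] [NumberField L] (S : Finset ℕ) (Q : HeightOneSpectrum (𝓞 L) → Prop)
    (y : L) (m : ℕ), y ≠ 0 → 1 ≤ m →
    (∀ v : HeightOneSpectrum (𝓞 L), (∀ p ∈ S, (p : 𝓞 L) ∉ v.asIdeal) → Q v →
      v.valuation L y ≤ WithZero.exp (-(m : ℤ))) →
    (m : ℝ) * Pool.Agent.W223.CV.cc S Q ≤ Real.log (Height.mulHeight₁ y)

/-- NORM: a nonzero multiple in `ℚ[X]`. -/
def StmtNORM : Prop :=
  ∀ (A : Type) [CommRing A] [IsDomain A] [Algebra ℚ[X] A] [Module.Finite ℚ[X] A]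
    [FaithfulSMul ℚ[X] A] (g : A), g ≠ 0 → ∃ G : ℚ[X], G ≠ 0 ∧
      ∀ (L : Type) [Field L] [NumberField L] (φ : A →+* L), aeval (φ (tt A)) G ≠ 0 → φ g ≠ 0

/-- NB: the truncated counting function of a closed subscheme is at most the height times its
relative degree. -/
def StmtNB : Prop :=
  ∀ (A : Type) [CommRing A] [IsDedekindDomain A] [Algebra ℚ A] [Algebra ℚ[X] A]
    [IsScalarTower ℚ ℚ[X] A] [Module.Finite ℚ[X] A] [FaithfulSMul ℚ[X] A]
    (I : Ideal A), I ≠ ⊥ → ∀ (s : ℕ) (z : Fin s → A), Ideal.span (Set.range z) = I →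
    ∀ ε : ℝ, 0 < ε → ∃ (M : ℕ) (C : ℝ) (G : ℚ[X]), M ≠ 0 ∧ 0 ≤ C ∧ G ≠ 0 ∧
      ∀ (L : Type) [Field L] [NumberField L] (φ : A →+* L), aeval (φ (tt A)) G ≠ 0 →
        Pool.Agent.W223.CV.cc (L := L) {M} (fun v => v.valuation L (φ (tt A)) ≤ 1 ∧
            ∀ k, v.valuation L (φ (z k)) < 1) ≤
          ((Module.finrank ℚ (A ⧸ I) : ℝ) / Module.finrank ℚ[X] A + ε) *
            Real.log (Height.mulHeight₁ (φ (tt A))) + Module.finrank ℚ L * C

end Pool.Agent.W223.AC
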