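import Mathlib
import Pool.Agent.W223.AC.Stms

/-!
# The truncated counting function of a closed subscheme
-/

set_option autoImplicit false

namespace Pool.Agent.W223.AC

open Polynomial IsDedekindDomain NumberField

theorem nb (hEX : StmtEX) (hLM : StmtLOCM) (hH : StmtHTG) (hS : StmtSUMN) (hN : StmtNORM) :
    StmtNB := by
  classical
  intro A _ _ _ _ _ _ _ I hI s z hz ε hε
  obtain ⟨ω, hω, hex⟩ := hEX A
  have hN0 : 0 < Module.finrank ℚ[X] A := by
    have : Module.IsTorsionFree ℚ[X] A := by infer_instance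
    exact Module.finrank_pos
  set n := Module.finrank ℚ (A ⧸ I) with hn
  obtain ⟨c, hc⟩ := hH A (Module.finrank ℚ[X] A) ω hω
  obtain ⟨m', hm'⟩ := exists_nat_gt ((c : ℝ) / ε)
  obtain ⟨m, hmd⟩ : ∃ m, m = m' + 1 := ⟨_, rfl⟩
  obtain ⟨D, hDd⟩ : ∃ D, D = m * n / Module.finrank ℚ[X] A := ⟨_, rfl⟩
  have hD : m * n < Module.finrank ℚ[X] A * (D + 1) := by
    rw [hDd]
    exact Nat.lt_mul_div_succ _ hN0
  obtain ⟨p, hp1, hp2, hp3⟩ := hex I hI m D hD
  obtain ⟨C, hC0, hC⟩ := hc D p hp1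
  obtain ⟨M, hM0, hM⟩ := hLM A s z m _ (by rw [hz]; exact hp2)
  obtain ⟨G, hG0, hG⟩ := hN A _ hp3
  refine ⟨M, C, G, hM0, hC0, hG0, ?_⟩
  intro L _ _ φ hφ
  have hne := hG L φ hφ
  have h1 := hS L {M} (fun v => v.valuation L (φ (tt A)) ≤ 1 ∧
    ∀ k, v.valuation L (φ (z k)) < 1) _ m hne (by omega) (by
      intro v hv hQ
      exact hM L φ v (hv M (Finset.mem_singleton_self _)) hQ.1 hQ.2)
  have h2 := h1.trans (hC L φ)
  have hm0 : (0 : ℝ) < m := by
    rw [hmd]; positivity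
  have hh : 0 ≤ Real.log (Height.mulHeight₁ (φ (tt A))) :=
    Real.log_nonneg (Height.one_le_mulHeight₁ _)
  have hL0 : (0 : ℝ) ≤ Module.finrank ℚ L := Nat.cast_nonneg _
  have h3 : (D : ℝ) ≤ m * n / Module.finrank ℚ[X] A := by
    rw [hDd]
    refine Nat.cast_div_le.trans ?_
    push_cast
    exact le_refl _
  have h4 : (c : ℝ) ≤ ε * m := by
    rw [div_lt_iff₀ hε] at hm'
    have : (m : ℝ) = m' + 1 := by rw [hmd]; push_cast; ring
    rw [this]
    nlinarith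
  have h5 : (D : ℝ) + c ≤ m * ((n : ℝ) / Module.finrank ℚ[X] A + ε) := by
    have : (m : ℝ) * ((n : ℝ) / Module.finrank ℚ[X] A + ε) = m * n / Module.finrank ℚ[X] A + ε * m := by ring
    rw [this]
    linarith
  have h6 : ((D : ℝ) + c) * Real.log (Height.mulHeight₁ (φ (tt A))) ≤
      m * ((n : ℝ) / Module.finrank ℚ[X] A + ε) * Real.log (Height.mulHeight₁ (φ (tt A))) :=
    mul_le_mul_of_nonneg_right h5 hh
  have hm1 : (1 : ℝ) ≤ m := by rw [hmd]; push_cast; linarith [Nat.cast_nonneg (α := ℝ) m']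
  have h7 : (Module.finrank ℚ L : ℝ) * C ≤ m * (Module.finrank ℚ L * C) := by
    nlinarith [mul_nonneg hL0 hC0]
  have h8 : (m : ℝ) * Pool.Agent.W223.CV.cc (L := L) {M}
      (fun v => v.valuation L (φ (tt A)) ≤ 1 ∧ ∀ k, v.valuation L (φ (z k)) < 1) ≤
      m * (((n : ℝ) / Module.finrank ℚ[X] A + ε) * Real.log (Height.mulHeight₁ (φ (tt A))) +
        Module.finrank ℚ L * C) := by
    rw [mul_add, ← mul_assoc]
    linarith
  exact le_of_mul_le_mul_left h8 hm0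

end Pool.Agent.W223.AC
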