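import Mathlib
import Pool.Agent.W223.AC.Stms

/-!
# Points near a fibre are near one of its parts
-/

set_option autoImplicit false

namespace Pool.Agent.W223.AC

open Polynomial IsDedekindDomain NumberField

lemma val_nat_eq_one {L : Type} [Field L] [NumberField L] (v : HeightOneSpectrum (𝓞 L)) (n : ℕ)
    (h : (n : 𝓞 L) ∉ v.asIdeal) : v.valuation L (n : L) = 1 := by
  have h1 : v.valuation L ((n : 𝓞 L) : L) ≤ 1 := v.valuation_le_one _
  have h2 : ¬ v.valuation L ((n : 𝓞 L) : L) < 1 := fun h3 => h ((v.valuation_lt_one_iff_mem _).mp h3)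
  have h3 : (((n : 𝓞 L) : L)) = (n : L) := by simp
  rw [h3] at h1 h2
  exact le_antisymm h1 (not_lt.mp h2)

theorem near (hM : StmtMULT) (hL : StmtLOC) (A : Type) [CommRing A] [Algebra ℚ[X] A]
    [Module.Finite ℚ[X] A] (τ : A) (u s : ℕ) (y : Fin u → A) (z : Fin s → A)
    (hyz : ∀ i k, y i * z k ∈ (Ideal.span {τ}).radical) :
    ∃ M : ℕ, M ≠ 0 ∧ ∀ (L : Type) [Field L] [NumberField L] (φ : A →+* L)
      (v : HeightOneSpectrum (𝓞 L)), (M : 𝓞 L) ∉ v.asIdeal → v.valuation L (φ (tt A)) ≤ 1 →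
      v.valuation L (φ τ) < 1 →
      (∀ i, v.valuation L (φ (y i)) < 1) ∨ ∀ k, v.valuation L (φ (z k)) < 1 := by
  classical
  have h1 : ∀ i k, ∃ (n : ℕ) (b : A) (N : ℕ), N ≠ 0 ∧ IntEl ((N : A) * b) ∧
      (y i * z k) ^ n = τ * b := by
    intro i k
    obtain ⟨n, hn⟩ := hyz i k
    obtain ⟨b, hb⟩ := Ideal.mem_span_singleton'.mp hn
    obtain ⟨N, hN, hi⟩ := hM A b
    exact ⟨n, b, N, hN, hi, by rw [← hb, mul_comm]⟩
  choose n b N hN hi hb using h1
  refine ⟨∏ i, ∏ k, N i k, Finset.prod_ne_zero_iff.mpr fun i _ =>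
    Finset.prod_ne_zero_iff.mpr fun k _ => hN i k, ?_⟩
  intro L _ _ φ v hv ht hτ
  by_contra hcon
  rw [not_or] at hcon
  obtain ⟨h2, h3⟩ := hcon
  push Not at h2 h3
  obtain ⟨i, hyi⟩ := h2
  obtain ⟨k, hzk⟩ := h3
  have h4 : (N i k : 𝓞 L) ∉ v.asIdeal := by
    intro h5
    apply hv
    have h6 : N i k ∣ ∏ i, ∏ k, N i k :=
      (Finset.dvd_prod_of_mem (fun k => N i k) (Finset.mem_univ k)).trans
        (Finset.dvd_prod_of_mem (fun i => ∏ k, N i k) (Finset.mem_univ i))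
    obtain ⟨c, hc⟩ := h6
    rw [hc]
    push_cast
    exact Ideal.mul_mem_right _ _ h5
  have h5 := hL A _ (hi i k) L φ v ht
  rw [map_mul, map_mul, map_natCast, val_nat_eq_one v _ h4, one_mul] at h5
  have h6 : 1 ≤ v.valuation L (φ ((y i * z k) ^ n i k)) := by
    rw [map_pow, map_pow, map_mul, map_mul]
    exact one_le_pow₀ (one_le_mul_of_one_le_of_one_le hyi hzk)
  rw [hb, map_mul, map_mul] at h6
  have h7 : v.valuation L (φ τ) * v.valuation L (φ (b i k)) < 1 :=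
    mul_lt_one_of_nonneg_of_lt_one_left zero_le hτ h5
  exact absurd h7 (not_lt.mpr h6)

end Pool.Agent.W223.AC
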