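import Mathlib
import Pool.Agent.W223.AC.NB
import Pool.Agent.W223.AC.NEAR

/-!
# The truncated counting function of the fibres
-/

set_option autoImplicit false

namespace Pool.Agent.W223.AC

open Polynomial IsDedekindDomain NumberField
open Pool.Agent.W223.VD (cnt)
open Pool.Agent.W223.CV

variable {L : Type} [Field L] [NumberField L]

lemma cc_mono' {S S' : Finset ℕ} {A A' : HeightOneSpectrum (𝓞 L) → Prop}
    (hA : {v | A v}.Finite) (h : ∀ v, (∀ p ∈ S', (p : 𝓞 L) ∉ v.asIdeal) → A' v →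
      (∀ p ∈ S, (p : 𝓞 L) ∉ v.asIdeal) ∧ A v) :
    cc S' A' ≤ cc S A := by
  have hA' : Function.HasFiniteSupport (ct S' A') := by
    refine hA.subset fun v hv => ?_
    rw [Function.mem_support] at hv
    by_contra h1
    exact hv (ct_neg fun h2 => h1 (h v h2.1 h2.2).2)
  unfold cc
  refine finsum_le_finsum' hA' (ct_support S hA) ?_
  intro v
  by_cases h1 : (∀ p ∈ S', (p : 𝓞 L) ∉ v.asIdeal) ∧ A' v
  · rw [ct_pos h1, ct_pos (h v h1.1 h1.2)]
  · rw [ct_neg h1]
    exact ct_nonneg S A v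

lemma val_finite (y : L) (hy : y ≠ 0) :
    {v : HeightOneSpectrum (𝓞 L) | v.valuation L y < 1}.Finite := by
  refine (Pool.Agent.W598.VD.TR.finite_support (K := L) 1 y hy).subset ?_
  intro v hv
  show v.valuation L y < max (v.valuation L 1) 1
  rw [map_one, max_self]
  exact hv

/-- the integral coordinates of a rational point -/
def pt (a : ℚ) : ℤ × ℤ := (a.num, a.den)

lemma pt_coprime (a : ℚ) : IsCoprime (pt a).1 (pt a).2 :=
  Int.isCoprime_iff_nat_coprime.mpr (by simpa [pt] using a.reduced)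

lemma pt_inj {a b : ℚ} (h : a ≠ b) : (pt a).1 * (pt b).2 ≠ (pt b).1 * (pt a).2 := by
  intro h1
  exact h (Rat.eq_iff_mul_eq_mul.mpr h1)

lemma near_pt (a : ℚ) (x : L) (v : HeightOneSpectrum (𝓞 L)) (hv : ((a.den : ℕ) : 𝓞 L) ∉ v.asIdeal)
    (h : Near (pt a) x v) : v.valuation L x ≤ 1 ∧ v.valuation L (x - (a : L)) < 1 := by
  have hd := val_nat_eq_one v _ hv
  have hd0 : (a.den : L) ≠ 0 := by exact_mod_cast a.den_nz
  have hn : v.valuation L ((a.num : ℤ) : L) ≤ 1 := by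
    have := v.valuation_le_one (K := L) ((a.num : ℤ) : 𝓞 L)
    simpa using this
  have hlin : lin (pt a) x = -((a.den : L) * (x - (a : L))) := by
    unfold lin pt
    have : (a : L) = (a.num : L) / (a.den : L) := by
      exact_mod_cast Rat.cast_def (K := L) a
    rw [this]
    field_simp
    push_cast
    ring
  have hle : v.valuation L x ≤ 1 := by
    by_contra h1
    rw [not_le] at h1
    have h2 : v.valuation L (lin (pt a) x) = v.valuation L x := by
      unfold lin pt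
      have h3 : v.valuation L (x * ((a.den : ℤ) : L)) = v.valuation L x := by
        rw [map_mul]
        have : (((a.den : ℤ)) : L) = (a.den : L) := by push_cast; rfl
        rw [this, hd, mul_one]
      show v.valuation L ((a.num : L) - x * ((a.den : ℤ) : L)) = _
      rw [Valuation.map_sub_eq_of_lt_right (v.valuation L) (by rw [h3]; exact hn.trans_lt h1), h3]
    have h3 : v.valuation L (lin (pt a) x) < max (v.valuation L x) 1 := h
    rw [h2, max_eq_left h1.le] at h3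
    exact lt_irrefl _ h3
  refine ⟨hle, ?_⟩
  have h3 : v.valuation L (lin (pt a) x) < max (v.valuation L x) 1 := h
  rw [max_eq_right hle, hlin, Valuation.map_neg, map_mul, hd, one_mul] at h3
  exact h3

omit [NumberField L] in
lemma not_mem_of_dvd {v : HeightOneSpectrum (𝓞 L)} {m n : ℕ} (h : m ∣ n)
    (hn : (n : 𝓞 L) ∉ v.asIdeal) : (m : 𝓞 L) ∉ v.asIdeal := by
  intro h1
  obtain ⟨c, rfl⟩ := h
  apply hn
  push_cast
  exact Ideal.mul_mem_right _ _ h1

omit [NumberField L] in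
lemma not_mem_of_primes {v : HeightOneSpectrum (𝓞 L)} {n : ℕ} (hn : n ≠ 0)
    (h : ∀ p ∈ n.primeFactors, (p : 𝓞 L) ∉ v.asIdeal) : (n : 𝓞 L) ∉ v.asIdeal := by
  induction n using Nat.recOnMul with
  | zero => exact absurd rfl hn
  | one =>
    intro h1
    exact v.isPrime.ne_top ((Ideal.eq_top_iff_one _).mpr (by simpa using h1))
  | prime p hp =>
    exact h p (by rw [hp.primeFactors]; exact Finset.mem_singleton_self _)
  | mul a b iha ihb =>
    have ha : a ≠ 0 := fun h => hn (by rw [h, zero_mul])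
    have hb : b ≠ 0 := fun h => hn (by rw [h, mul_zero])
    intro h1
    push_cast at h1
    rw [Nat.primeFactors_mul ha hb] at h
    rcases v.isPrime.mem_or_mem h1 with h2 | h2
    · exact iha ha (fun p hp => h p (Finset.mem_union_left _ hp)) h2
    · exact ihb hb (fun p hp => h p (Finset.mem_union_right _ hp)) h2

theorem key (hNB : StmtNB) (hNO : StmtNORM) (hMU : StmtMULT) (hLO : StmtLOC)
    (A : Type) [CommRing A] [IsDedekindDomain A] [Algebra ℚ A] [Algebra ℚ[X] A]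
    [IsScalarTower ℚ ℚ[X] A] [Module.Finite ℚ[X] A] [FaithfulSMul ℚ[X] A]
    {q : ℕ} (hq : 1 ≤ q) (a : Fin q → ℚ) (u : Fin q → ℕ) (y : ∀ j, Fin (u j) → A)
    (E : Fin q → Ideal A) (hE : ∀ j, E j ≠ ⊥)
    (hyE : ∀ j i, ∀ e ∈ E j,
      y j i * e ∈ (Ideal.span {tt A - algebraMap ℚ[X] A (C (a j))}).radical)
    (ε : ℝ) (hε : 0 < ε) :
    ∃ (M : ℕ) (C : ℝ) (G : ℚ[X]), M ≠ 0 ∧ 0 ≤ C ∧ G ≠ 0 ∧
      ∀ (S : Finset ℕ) (L : Type) [Field L] [NumberField L] (φ : A →+* L),
        aeval (φ (tt A)) G ≠ 0 → (∀ j, φ (tt A) ≠ (a j : L)) →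
        cnt (S ∪ M.primeFactors) (fun j => pt (a j)) (φ (tt A)) ≤
          cc S (fun v : HeightOneSpectrum (𝓞 L) => v.valuation L (φ (tt A)) ≤ 1 ∧
            ∃ j, v.valuation L (φ (tt A) - (a j : L)) < 1 ∧
              ∀ i, v.valuation L (φ (y j i)) < 1) +
          ((∑ j, (Module.finrank ℚ (A ⧸ E j) : ℝ)) / Module.finrank ℚ[X] A + ε) *
            Real.log (Height.mulHeight₁ (φ (tt A))) + Module.finrank ℚ L * C := by
  classical
  have hNoeth : IsNoetherianRing A := inferInstance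
  have hfg : ∀ j, ∃ (s : ℕ) (z : Fin s → A), Ideal.span (Set.range z) = E j := fun j =>
    Submodule.fg_iff_exists_fin_generating_family.mp (hNoeth.noetherian (E j))
  choose s z hz using hfg
  have hq0 : (0 : ℝ) < q := by exact_mod_cast hq
  have hNB' := fun j => hNB A (E j) (hE j) (s j) (z j) (hz j) (ε / q) (by positivity)
  choose M₁ C₁ G₁ hM₁ hC₁ hG₁ hNB'' using hNB'
  have hNE := fun j => near hMU hLO A (tt A - algebraMap ℚ[X] A (C (a j))) (u j) (s j) (y j) (z j)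
    (fun i k => hyE j i _ (by rw [← hz j]; exact Ideal.subset_span ⟨k, rfl⟩))
  choose M₂ hM₂ hNE' using hNE
  have hzne : ∀ j, ∃ k, z j k ≠ 0 := by
    intro j
    by_contra hcon
    push Not at hcon
    apply hE j
    rw [← hz j, Ideal.span_eq_bot]
    rintro _ ⟨k, rfl⟩
    exact hcon k
  choose k₀ hk₀ using hzne
  have hNO' := fun j => hNO A _ (hk₀ j)
  choose G₂ hG₂ hNO'' using hNO'
  refine ⟨∏ j, (M₁ j * M₂ j * (a j).den), ∑ j, C₁ j, ∏ j, (G₁ j * G₂ j),
    Finset.prod_ne_zero_iff.mpr fun j _ => mul_ne_zero (mul_ne_zero (hM₁ j) (hM₂ j))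
      (a j).den_nz, Finset.sum_nonneg fun j _ => hC₁ j,
    Finset.prod_ne_zero_iff.mpr fun j _ => mul_ne_zero (hG₁ j) (hG₂ j), ?_⟩
  intro S L _ _ φ hG hne
  set x := φ (tt A) with hx
  set M := ∏ j, (M₁ j * M₂ j * (a j).den) with hM
  have hM0 : M ≠ 0 := Finset.prod_ne_zero_iff.mpr fun j _ =>
    mul_ne_zero (mul_ne_zero (hM₁ j) (hM₂ j)) (a j).den_nz
  have hGj : ∀ j, aeval x (G₁ j) ≠ 0 ∧ aeval x (G₂ j) ≠ 0 := by
    intro j
    rw [map_prod, Finset.prod_ne_zero_iff] at hG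
    have := hG j (Finset.mem_univ j)
    rw [map_mul] at this
    exact ⟨left_ne_zero_of_mul this, right_ne_zero_of_mul this⟩
  have hdiv : ∀ j, M₁ j * M₂ j * (a j).den ∣ M := fun j =>
    Finset.dvd_prod_of_mem (fun j => M₁ j * M₂ j * (a j).den) (Finset.mem_univ j)
  -- the parts
  have hxa : ∀ j, x - (a j : L) ≠ 0 := fun j => sub_ne_zero.mpr (hne j)
  have hDfin : {v : HeightOneSpectrum (𝓞 L) | v.valuation L x ≤ 1 ∧
      ∃ j, v.valuation L (x - (a j : L)) < 1 ∧ ∀ i, v.valuation L (φ (y j i)) < 1}.Finite := by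
    refine (Set.finite_iUnion fun j => val_finite _ (hxa j)).subset ?_
    rintro v ⟨-, j, hv, -⟩
    exact Set.mem_iUnion.mpr ⟨j, hv⟩
  have hEfin : ∀ j, {v : HeightOneSpectrum (𝓞 L) | v.valuation L x ≤ 1 ∧
      ∀ k, v.valuation L (φ (z j k)) < 1}.Finite := by
    intro j
    exact (val_finite _ (hNO'' j L φ (hGj j).2)).subset fun v hv => hv.2 (k₀ j)
  have hEfin2 : {v : HeightOneSpectrum (𝓞 L) | ∃ j ∈ Finset.univ, v.valuation L x ≤ 1 ∧
      ∀ k, v.valuation L (φ (z j k)) < 1}.Finite := by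
    refine (Set.finite_iUnion fun j => hEfin j).subset ?_
    rintro v ⟨j, -, hv⟩
    exact Set.mem_iUnion.mpr ⟨j, hv⟩
  have hSM : ∀ v : HeightOneSpectrum (𝓞 L), (∀ p ∈ S ∪ M.primeFactors, (p : 𝓞 L) ∉ v.asIdeal) →
      (M : 𝓞 L) ∉ v.asIdeal := fun v hv =>
    not_mem_of_primes hM0 fun p hp => hv p (Finset.mem_union_right _ hp)
  rw [cnt_eq]
  have h1 : cc (S ∪ M.primeFactors)
        (fun v : HeightOneSpectrum (𝓞 L) => ∃ j ∈ Finset.univ, Near (pt (a j)) x v) ≤
      cc (S ∪ M.primeFactors) (fun v : HeightOneSpectrum (𝓞 L) => (v.valuation L x ≤ 1 ∧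
        ∃ j, v.valuation L (x - (a j : L)) < 1 ∧ ∀ i, v.valuation L (φ (y j i)) < 1) ∨
        ∃ j ∈ Finset.univ, v.valuation L x ≤ 1 ∧ ∀ k, v.valuation L (φ (z j k)) < 1) := by
    refine cc_mono (le_refl _) (hDfin.union hEfin2) ?_
    rintro v hv ⟨j, -, hn⟩
    have hMv := hSM v hv
    have hdv : (((a j).den : ℕ) : 𝓞 L) ∉ v.asIdeal :=
      not_mem_of_dvd ((Dvd.intro_left _ rfl).trans (hdiv j)) hMv
    have hM2v : ((M₂ j : ℕ) : 𝓞 L) ∉ v.asIdeal :=
      not_mem_of_dvd (((Dvd.intro_left _ rfl).trans (Dvd.intro _ rfl)).trans (hdiv j)) hMv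
    obtain ⟨h2, h3⟩ := near_pt (a j) x v hdv hn
    have h4 : φ (tt A - algebraMap ℚ[X] A (C (a j))) = x - (a j : L) := by
      rw [map_sub, hx]
      congr 1
      exact eq_ratCast (φ.comp ((algebraMap ℚ[X] A).comp C)) (a j)
    rcases hNE' j L φ v hM2v h2 (by rw [h4]; exact h3) with h5 | h5
    · exact Or.inl ⟨h2, j, h3, h5⟩
    · exact Or.inr ⟨j, Finset.mem_univ _, h2, h5⟩
  have h2 := cc_or (S ∪ M.primeFactors) hDfin hEfin2
  have h3 : cc (S ∪ M.primeFactors) (fun v : HeightOneSpectrum (𝓞 L) => v.valuation L x ≤ 1 ∧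
        ∃ j, v.valuation L (x - (a j : L)) < 1 ∧ ∀ i, v.valuation L (φ (y j i)) < 1) ≤
      cc S (fun v : HeightOneSpectrum (𝓞 L) => v.valuation L x ≤ 1 ∧
        ∃ j, v.valuation L (x - (a j : L)) < 1 ∧ ∀ i, v.valuation L (φ (y j i)) < 1) :=
    cc_mono Finset.subset_union_left hDfin fun v _ h => h
  have h4 := cc_exists (S ∪ M.primeFactors) Finset.univ
    (fun j (v : HeightOneSpectrum (𝓞 L)) => v.valuation L x ≤ 1 ∧
      ∀ k, v.valuation L (φ (z j k)) < 1) hEfin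
  have h5 : ∀ j, cc (S ∪ M.primeFactors) (fun v : HeightOneSpectrum (𝓞 L) =>
      v.valuation L x ≤ 1 ∧ ∀ k, v.valuation L (φ (z j k)) < 1) ≤
      ((Module.finrank ℚ (A ⧸ E j) : ℝ) / Module.finrank ℚ[X] A + ε / q) *
        Real.log (Height.mulHeight₁ x) + Module.finrank ℚ L * C₁ j := by
    intro j
    refine le_trans (cc_mono' (S := {M₁ j}) (hEfin j) fun v hv h => ⟨?_, h⟩)
      (hNB'' j L φ (hGj j).1)
    intro p hp
    rw [Finset.mem_singleton] at hp
    rw [hp]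
    exact not_mem_of_dvd (((Dvd.intro _ rfl).trans (Dvd.intro _ rfl)).trans (hdiv j)) (hSM v hv)
  have h6 := Finset.sum_le_sum fun j (_ : j ∈ Finset.univ) => h5 j
  have h7 : ∑ j, (((Module.finrank ℚ (A ⧸ E j) : ℝ) / Module.finrank ℚ[X] A + ε / q) *
        Real.log (Height.mulHeight₁ x) + Module.finrank ℚ L * C₁ j) =
      ((∑ j, (Module.finrank ℚ (A ⧸ E j) : ℝ)) / Module.finrank ℚ[X] A + ε) *
            Real.log (Height.mulHeight₁ x) + Module.finrank ℚ L * ∑ j, C₁ j := by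
    rw [Finset.sum_add_distrib, ← Finset.sum_mul, ← Finset.mul_sum, Finset.sum_add_distrib,
      ← Finset.sum_div]
    have : ∑ _j : Fin q, ε / (q : ℝ) = ε := by
      rw [Finset.sum_const, Finset.card_univ, Fintype.card_fin, nsmul_eq_mul,
        mul_div_cancel₀ _ hq0.ne']
    rw [this]
  rw [h7] at h6
  linarith

end Pool.Agent.W223.AC
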