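import Mathlib
import Pool.Agent.W223.VD.Points
import Pool.Agent.W469.CV.REL
import Pool.Agent.W469.CV.MH
import Pool.Agent.W223.AC.Key

/-!
# The inequality for the values of a function, over all number fields
-/

set_option autoImplicit false

namespace Pool.Agent.W223.AC.MR

open Polynomial IntermediateField IsDedekindDomain NumberField
open Pool.Agent.W223.VD (cnt)
open Pool.Agent.W223.AC (pt)

/-- The absolute logarithmic height -/
noncomputable def height (f : ℤ[X]) : ℝ :=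
  Real.log (f.map (Int.castRingHom ℂ)).mahlerMeasure / f.natDegree

/-- the exponent `α` -/
noncomputable def alpha (r : ℕ) (c η : ℝ) : ℝ :=
  min (((r : ℝ) - 1) * (r + 2) / (4 * ((r + 1) / 2 : ℕ))) (c * (r : ℝ) ^ η)

/-- the exponent of the theorem -/
noncomputable def exponent (α : ℝ) (r q : ℕ) (κ : ℝ) : ℝ :=
  min (α * (q - κ)) (((q * α - 2) * (r + 1 - (min q (r + 1) : ℕ)) +
    (min q (r + 1) : ℕ) * α * (q - κ)) / (q * α + (min q (r + 1) : ℕ) - 2))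

lemma one_le_alpha {r : ℕ} (hr : 2 ≤ r) {c η : ℝ} (hc : 1 ≤ c) (hη : 0 < η) :
    1 ≤ alpha r c η := by
  have hr1 : (1 : ℝ) ≤ r := by exact_mod_cast (show 1 ≤ r by omega)
  have h1 : 1 ≤ c * (r : ℝ) ^ η :=
    one_le_mul_of_one_le_of_one_le hc (Real.one_le_rpow hr1 hη.le)
  refine le_min ?_ h1
  have h3 : 0 < 4 * (((r + 1) / 2 : ℕ) : ℝ) := by
    have : 1 ≤ (r + 1) / 2 := by omega
    have h4 : (1 : ℝ) ≤ ((r + 1) / 2 : ℕ) := by exact_mod_cast this
    linarith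
  rw [one_le_div h3]
  have h5 : 4 * ((r + 1) / 2) + 2 ≤ r * r + r := by
    rcases Nat.lt_or_ge r 3 with h6 | h6
    · have : r = 2 := by omega
      subst this
      norm_num
    · have h7 : 2 * ((r + 1) / 2) ≤ r + 1 := Nat.mul_div_le _ _
      nlinarith
  have h6 : (4 : ℝ) * ((r + 1) / 2 : ℕ) + 2 ≤ r * r + r := by exact_mod_cast h5
  nlinarith

lemma exponent_aux {α : ℝ} (hα : 1 ≤ α) {r q : ℕ} (hr : 2 ≤ r) (hq : 3 ≤ q) :
    (1 : ℝ) ≤ (min q (r + 1) : ℕ) ∧ ((min q (r + 1) : ℕ) : ℝ) ≤ r + 1 ∧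
      ((min q (r + 1) : ℕ) : ℝ) ≤ q * α + (min q (r + 1) : ℕ) - 2 ∧ 0 < (q : ℝ) * α - 2 := by
  have h1 : 1 ≤ min q (r + 1) := by omega
  have h2 : min q (r + 1) ≤ r + 1 := min_le_right _ _
  have h3 : (3 : ℝ) ≤ q := by exact_mod_cast hq
  have h4 : (1 : ℝ) ≤ (min q (r + 1) : ℕ) := by exact_mod_cast h1
  have h5 : ((min q (r + 1) : ℕ) : ℝ) ≤ r + 1 := by exact_mod_cast h2
  refine ⟨h4, h5, by nlinarith, by nlinarith⟩

lemma exponent_sub {α : ℝ} (hα : 1 ≤ α) {r q : ℕ} (hr : 2 ≤ r) (hq : 3 ≤ q) (κ s : ℝ)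
    (hs : 0 ≤ s) : exponent α r q (κ - s) ≤ exponent α r q κ + α * s := by
  obtain ⟨h1, h2, h3, h4⟩ := exponent_aux hα hr hq
  unfold exponent
  set m : ℝ := ((min q (r + 1) : ℕ) : ℝ) with hm
  have hden : 0 < (q : ℝ) * α + m - 2 := by linarith
  rw [← min_add_add_right]
  refine min_le_min (by linarith) ?_
  rw [div_add' _ _ _ hden.ne', div_le_div_iff_of_pos_right hden]
  have h5 : m * α * s ≤ (q * α + m - 2) * (α * s) := by
    rw [mul_assoc]
    exact mul_le_mul_of_nonneg_right h3 (by positivity)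
  nlinarith

lemma exponent_nonneg {α : ℝ} (hα : 1 ≤ α) {r q : ℕ} (hr : 2 ≤ r) (hq : 3 ≤ q) {κ : ℝ}
    (hκ : κ ≤ q) : 0 ≤ exponent α r q κ := by
  obtain ⟨h1, h2, h3, h4⟩ := exponent_aux hα hr hq
  unfold exponent
  have h5 : 0 ≤ (q : ℝ) - κ := by linarith
  refine le_min (mul_nonneg (by linarith) h5) (div_nonneg ?_ (by linarith))
  have h6 := mul_nonneg h4.le (sub_nonneg.mpr h2)
  have h7 := mul_nonneg (mul_nonneg (zero_le_one.trans h1) (zero_le_one.trans hα)) h5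
  linarith

/-- the exceptional values -/
def exc {q : ℕ} (S : Finset ℕ) (a : Fin q → ℚ) (r : ℕ) (κ C₀ B : ℝ) (G : ℚ[X]) : Set ℂ :=
  {x | ∃ f : ℤ[X], Irreducible f ∧ f.natDegree = r ∧ aeval x f = 0 ∧ height f ≤ Real.log B ∧
    (aeval x G = 0 ∨ ∃ (L : IntermediateField ℚ ℂ) (_ : NumberField L) (ξ : L), (ξ : ℂ) = x ∧
      cnt S (fun j => pt (a j)) ξ / Module.finrank ℚ L +
        Real.log |(discr L : ℝ)| / Module.finrank ℚ L + C₀ < (q - κ) * height f)}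

lemma ne_rat {r : ℕ} (hr : 2 ≤ r) {f : ℤ[X]} (hf : Irreducible f) (hd : f.natDegree = r)
    {L : Type} [Field L] [NumberField L] {ξ : L} (hx : aeval ξ f = 0) (a : ℚ) : ξ ≠ (a : L) := by
  intro h9
  have h10 : Pool.Agent.W223.CV.lin (pt a) ξ = 0 := by
    unfold Pool.Agent.W223.CV.lin
    rw [h9]
    have h11 : ((a : ℚ) : L) = ((a.num : ℤ) : L) / ((a.den : ℤ) : L) := by
      have := Rat.cast_def (K := L) a
      push_cast
      exact this
    have h12 : ((a.den : ℤ) : L) ≠ 0 := by exact_mod_cast a.den_nz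
    show ((a.num : ℤ) : L) - ((a : ℚ) : L) * ((a.den : ℤ) : L) = 0
    rw [h11, div_mul_cancel₀ _ h12, sub_self]
  exact Pool.Agent.W598.VD.TR.L_ne_zero ξ f (pt a) hx
    (Pool.Agent.W223.VD.value_ne_zero hr hf hd (pt a) (Pool.Agent.W223.AC.pt_coprime a)) h10

lemma aeval_L {L : IntermediateField ℚ ℂ} {x : ℂ} (ξ : L) (hξ : (ξ : ℂ) = x) (f : ℤ[X])
    (hx : aeval x f = 0) : aeval ξ f = 0 := by
  have h := aeval_algebraMap_apply ℂ ξ f
  have h11 : algebraMap L ℂ ξ = x := hξ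
  rw [h11, hx] at h
  exact Subtype.ext h.symm

lemma aeval_ne {L : IntermediateField ℚ ℂ} {x : ℂ} (ξ : L) (hξ : (ξ : ℂ) = x) (G : ℚ[X])
    (hx : aeval x G ≠ 0) : aeval ξ G ≠ 0 := by
  intro h9
  apply hx
  have h := aeval_algebraMap_apply ℂ ξ G
  have h11 : algebraMap L ℂ ξ = x := hξ
  rw [h11, h9, map_zero] at h
  exact h

theorem master : ∀ η : ℝ, 0 < η → ∃ c : ℝ, 1 ≤ c ∧ ∀ (r q : ℕ), 2 ≤ r → 3 ≤ q →
    ∀ a : Fin q → ℚ, Function.Injective a → ∀ κ δ : ℝ, κ ≤ q → 0 < δ → ∃ ε : ℝ, 0 < ε ∧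
    ∀ S : Finset ℕ, (∀ p ∈ S, p.Prime) → ∀ (C₀ : ℝ) (G : ℚ[X]), G ≠ 0 →
    ∃ C : ℝ, ∀ B : ℝ, 1 ≤ B → (exc S a r (κ - ε) C₀ B G).Finite ∧
      ((exc S a r (κ - ε) C₀ B G).ncard : ℝ) ≤
        C * B ^ ((r : ℝ) * exponent (alpha r c η) r q κ + δ) := by
  classical
  intro η hη
  obtain ⟨c, hc, hα⟩ := Pool.Agent.W223.VD.Points.result η hη
  refine ⟨c, hc, ?_⟩
  intro r q hr hq a ha κ δ hκ hδ
  have hα1 := one_le_alpha hr hc hη
  set α := alpha r c η with hαd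
  have hr0 : (0 : ℝ) < r := by exact_mod_cast (show 0 < r by omega)
  have hα0 : 0 < α := by linarith
  obtain ⟨ε, hεd⟩ : ∃ ε, ε = δ / (2 * (r * α)) := ⟨_, rfl⟩
  have hrα : 0 < 2 * (r * α) := by positivity
  have hε : 0 < ε := by rw [hεd]; positivity
  refine ⟨ε, hε, ?_⟩
  intro S hS C₀ G hG
  set P : Fin q → ℤ × ℤ := fun j => pt (a j) with hPd
  have hP : ∀ j, IsCoprime (P j).1 (P j).2 := fun j => Pool.Agent.W223.AC.pt_coprime (a j)
  have hPP : ∀ i j, i ≠ j → (P i).1 * (P j).2 ≠ (P j).1 * (P i).2 := fun i j hij =>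
    Pool.Agent.W223.AC.pt_inj fun h => hij (ha h)
  obtain ⟨C, hB⟩ := hα r q hr hq P hP hPP S hS (κ - ε) C₀ (δ / 2) (by linarith) (by linarith)
  refine ⟨max C 0 + (G.rootSet ℂ).ncard, fun B hB1 => ?_⟩
  obtain ⟨h1, h2⟩ := hB B hB1
  have hfinG : (G.rootSet ℂ).Finite := Polynomial.rootSet_finite G ℂ
  have hsub : exc S a r (κ - ε) C₀ B G ⊆
      Pool.Agent.W223.VD.Points.exceptional S P r (κ - ε) C₀ B ∪ G.rootSet ℂ := by
    rintro x ⟨f, hf, hd, hx, hh, hor⟩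
    rcases hor with hGx | ⟨L, hLN, ξ, hξ, hv⟩
    · exact Or.inr ((Polynomial.mem_rootSet_of_ne hG).mpr hGx)
    refine Or.inl ⟨f, hf, hd, hx, hh, ?_⟩
    by_contra hcon
    rw [not_lt] at hcon
    have hxL : x ∈ L := by
      rw [← hξ]
      exact ξ.2
    obtain ⟨hK, hfr⟩ := Pool.Agent.W223.VD.field_data (by omega) hf hd hx
    have hle : ℚ⟮x⟯ ≤ L := IntermediateField.adjoin_simple_le_iff.mpr hxL
    let : Algebra ℚ⟮x⟯ L := (IntermediateField.inclusion hle).toRingHom.toAlgebra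
    have hgen : algebraMap ℚ⟮x⟯ L (AdjoinSimple.gen ℚ x) = ξ := Subtype.ext hξ.symm
    have hxf : aeval (AdjoinSimple.gen ℚ x) f = 0 := by
      have h9 : (aeval (AdjoinSimple.gen ℚ x) f : ℚ⟮x⟯).1 = 0 := by
        have := aeval_algebraMap_apply ℂ (AdjoinSimple.gen ℚ x) f
        have h10 : algebraMap ℚ⟮x⟯ ℂ (AdjoinSimple.gen ℚ x) = x := rfl
        rw [h10, hx] at this
        exact this.symm
      exact Subtype.ext h9
    have hlin : ∀ j, Pool.Agent.W223.CV.lin (P j) (AdjoinSimple.gen ℚ x) ≠ 0 := fun j =>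
      Pool.Agent.W598.VD.TR.L_ne_zero _ f (P j) hxf
        (Pool.Agent.W223.VD.value_ne_zero hr hf hd (P j) (hP j))
    have e1 : Pool.Agent.W223.VD.Points.truncated S P x =
        cnt S P (AdjoinSimple.gen ℚ x) / Module.finrank ℚ ℚ⟮x⟯ := by
      unfold Pool.Agent.W223.VD.Points.truncated
      rw [dif_pos hK]
      rfl
    have e2 : Pool.Agent.W223.VD.Points.logDisc x =
        Real.log |(discr ℚ⟮x⟯ : ℝ)| / Module.finrank ℚ ℚ⟮x⟯ := by
      unfold Pool.Agent.W223.VD.Points.logDisc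
      rw [dif_pos hK]
    rw [e1, e2] at hcon
    have hrel := Pool.Agent.W469.CV.REL.t ℚ⟮x⟯ L q S P (AdjoinSimple.gen ℚ x) hlin
    rw [hgen] at hrel
    have hkpos : (0 : ℝ) < Module.finrank ℚ ℚ⟮x⟯ := by exact_mod_cast Module.finrank_pos
    have hLpos : (0 : ℝ) < Module.finrank ℚ L := by exact_mod_cast Module.finrank_pos
    have htow : (Module.finrank ℚ L : ℝ) =
        Module.finrank ℚ ℚ⟮x⟯ * Module.finrank ℚ⟮x⟯ L := by
      exact_mod_cast (Module.finrank_mul_finrank ℚ ℚ⟮x⟯ L).symm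
    have h4 : cnt S P (AdjoinSimple.gen ℚ x) / Module.finrank ℚ ℚ⟮x⟯ +
        Real.log |(discr ℚ⟮x⟯ : ℝ)| / Module.finrank ℚ ℚ⟮x⟯ ≤
        cnt S P ξ / Module.finrank ℚ L +
          Real.log |(discr L : ℝ)| / Module.finrank ℚ L := by
      rw [← add_div, ← add_div, div_le_div_iff₀ hkpos hLpos, htow]
      have : (cnt S P (AdjoinSimple.gen ℚ x) +
          Real.log |(discr ℚ⟮x⟯ : ℝ)|) *
          (Module.finrank ℚ ℚ⟮x⟯ * Module.finrank ℚ⟮x⟯ L) =
          (Module.finrank ℚ⟮x⟯ L * (Real.log |(discr ℚ⟮x⟯ : ℝ)| +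
            cnt S P (AdjoinSimple.gen ℚ x))) * Module.finrank ℚ ℚ⟮x⟯ := by
        ring
      rw [this]
      refine mul_le_mul_of_nonneg_right ?_ hkpos.le
      linarith
    have e5 : Pool.Agent.W223.VD.Points.height f = height f := rfl
    rw [e5] at hcon
    linarith
  refine ⟨(h1.union hfinG).subset hsub, ?_⟩
  have h3 : ((exc S a r (κ - ε) C₀ B G).ncard : ℝ) ≤
      ((Pool.Agent.W223.VD.Points.exceptional S P r (κ - ε) C₀ B).ncard :
        ℝ) + (G.rootSet ℂ).ncard := by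
    exact_mod_cast (Set.ncard_le_ncard hsub (h1.union hfinG)).trans (Set.ncard_union_le _ _)
  have he0 := exponent_nonneg hα1 hr hq hκ
  have hexp : (r : ℝ) * Pool.Agent.W223.VD.Points.exponent
      (Pool.Agent.W223.VD.Points.alpha r c η) r q (κ - ε) + δ / 2 ≤
      (r : ℝ) * exponent α r q κ + δ := by
    have h4 := exponent_sub hα1 hr hq κ ε hε.le
    have h5 := mul_le_mul_of_nonneg_left h4 hr0.le
    have h6 : (r : ℝ) * (α * ε) = δ / 2 := by
      rw [hεd]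
      field_simp
    have e1 : Pool.Agent.W223.VD.Points.exponent
      (Pool.Agent.W223.VD.Points.alpha r c η) r q (κ - ε) =
        exponent α r q (κ - ε) := rfl
    rw [e1]
    rw [mul_add, h6] at h5
    linarith
  have hpos : 0 ≤ (r : ℝ) * exponent α r q κ + δ := by
    have := mul_nonneg hr0.le he0
    linarith
  have hB2 : (1 : ℝ) ≤ B ^ ((r : ℝ) * exponent α r q κ + δ) := Real.one_le_rpow hB1 hpos
  have hB3 := Real.rpow_le_rpow_of_exponent_le hB1 hexp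
  have h8 : (C : ℝ) * B ^ ((r : ℝ) * Pool.Agent.W223.VD.Points.exponent
      (Pool.Agent.W223.VD.Points.alpha r c η) r q (κ - ε) + δ / 2) ≤
      max C 0 * B ^ ((r : ℝ) * exponent α r q κ + δ) :=
    (mul_le_mul_of_nonneg_right (le_max_left C 0) (by positivity)).trans
      (mul_le_mul_of_nonneg_left hB3 (le_max_right _ _))
  have h9 : ((G.rootSet ℂ).ncard : ℝ) ≤
      (G.rootSet ℂ).ncard * B ^ ((r : ℝ) * exponent α r q κ + δ) :=
    le_mul_of_one_le_right (Nat.cast_nonneg _) hB2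
  rw [add_mul]
  exact h3.trans (add_le_add (h2.trans h8) h9)

end Pool.Agent.W223.AC.MR
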