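import Mathlib
import Pool.Agent.W223.AC.Key
import Pool.Agent.Results.MP_f5a5f7_nt.FewExceptions

/-!
# Further parts: local heights at all places, and rational values over number fields
-/

set_option autoImplicit false

namespace Pool.Agent.W223.AC

open Polynomial IsDedekindDomain NumberField
open Pool.Agent.W223.VD (cnt)
open Pool.Agent.W125.CV (fv)

/-- LOCP: size of elements of `I ^ m` at all places near the zeros of `I`. -/
def StmtLOCP : Prop :=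
  ∀ (A : Type) [CommRing A] [Algebra ℚ[X] A] [Module.Finite ℚ[X] A] (a : ℚ) (s : ℕ)
    (z : Fin (s + 1) → A), z 0 = tt A - algebraMap ℚ[X] A (C a) →
    ∀ (m : ℕ) (g : A), g ∈ Ideal.span (Set.range z) ^ m →
    ∃ (n : ℕ) (K : ℝ), n ≠ 0 ∧ 1 ≤ K ∧ ∀ (L : Type) [Field L] [NumberField L] (φ : A →+* L)
      (μ : ℝ), 0 ≤ μ → μ ≤ 1 →
      (∀ v : HeightOneSpectrum (𝓞 L), (∀ i, fv v (φ (z i)) ≤ μ) →
        fv v (φ g) * fv v (n : L) ≤ μ ^ m) ∧
      ∀ w : InfinitePlace L, (∀ i, w (φ (z i)) ≤ μ) → w (φ g) ≤ K * μ ^ m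

/-- SUMP: the sum of the local inequalities. -/
def StmtSUMP : Prop :=
  ∀ (L : Type) [Field L] [NumberField L] (y : L) (n m : ℕ) (K : ℝ)
    (f : HeightOneSpectrum (𝓞 L) → ℝ) (h : InfinitePlace L → ℝ), y ≠ 0 → n ≠ 0 → 1 ≤ m → 1 ≤ K →
    (∀ v, 0 ≤ f v) → (∀ v, f v ≠ 0 → fv v y * fv v (n : L) ≤ Real.exp (-(m * f v))) →
    (∀ w, 0 ≤ h w) → (∀ w, h w ≠ 0 → w y ≤ K * Real.exp (-(m * h w))) →
    {v | f v ≠ 0}.Finite ∧ (m : ℝ) * (∑ᶠ v, f v + ∑ w : InfinitePlace L, w.mult * h w) ≤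
      Real.log (Height.mulHeight₁ y) + Module.finrank ℚ L * (Real.log K + Real.log n)

/-- the linear fractional map with `a_0, a_1, a_2 ↦ 0, 1, ∞` -/
noncomputable def mob {K : Type} [Field K] [NumberField K] (a : Fin 3 → ℚ) (x : K) : K :=
  ((x - a 0) * ((a 1 : K) - a 2)) / ((x - a 2) * ((a 1 : K) - a 0))

/-- MOBH: heights under a linear fractional map. -/
def StmtMOBH : Prop :=
  ∀ (K : Type) [Field K] [NumberField K] (a : Fin 3 → ℚ), Function.Injective a →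
    ∃ C : ℝ, 0 ≤ C ∧ ∀ x : K, (∀ j, x ≠ (a j : K)) →
      Real.log (Height.mulHeight₁ x) ≤ Real.log (Height.mulHeight₁ (mob a x)) + C ∧
      Real.log (Height.mulHeight₁ (mob a x)) ≤ Real.log (Height.mulHeight₁ x) + C

/-- MOBC: the conductor under a linear fractional map. -/
def StmtMOBC : Prop :=
  ∀ (K : Type) [Field K] [NumberField K] (a : Fin 3 → ℚ), Function.Injective a →
    ∀ S : Finset ℕ, (∀ p ∈ S, p.Prime) → ∃ C : ℝ, 0 ≤ C ∧ ∀ x : K, (∀ j, x ≠ (a j : K)) →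
      Module.finrank ℚ K * (Pool.Agent.Results.MP_f5a5f7_nt.FewExceptions.cond (mob a x) +
        Pool.Agent.Results.MP_f5a5f7_nt.FewExceptions.cond (mob a x)⁻¹ +
        Pool.Agent.Results.MP_f5a5f7_nt.FewExceptions.cond (mob a x - 1)) ≤
      cnt S (fun j => pt (a j)) x + C

end Pool.Agent.W223.AC
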