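import Mathlib
import Pool.Agent.W223.AC.NBP

/-!
# The fibres as unions of pieces
-/

set_option autoImplicit false

namespace Pool.Agent.W223.AC

open Polynomial IsDedekindDomain NumberField
open Pool.Agent.W223.VD (cnt)
open Pool.Agent.W223.CV
open Pool.Agent.W125.CV (fv fv_eq)

/-- near the zeros of `z` -/
def NearP {A : Type} [CommRing A] [Algebra ℚ[X] A] {s : ℕ} (z : Fin (s + 1) → A) {L : Type}
    [Field L] [NumberField L] (φ : A →+* L) (v : HeightOneSpectrum (𝓞 L)) : Prop :=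
  v.valuation L (φ (tt A)) ≤ 1 ∧ ∀ i, v.valuation L (φ (z i)) < 1

lemma fv_le_pow {L : Type} [Field L] [NumberField L] (v : HeightOneSpectrum (𝓞 L)) (y : L) (m : ℕ)
    (h : v.valuation L y ≤ WithZero.exp (-(m : ℤ))) :
    fv v y ≤ ((Ideal.absNorm v.asIdeal : ℝ) ^ m)⁻¹ := by
  have hmono : StrictMono (WithZeroMulInt.toNNReal
      (HeightOneSpectrum.absNorm_ne_zero v)) :=
    WithZeroMulInt.toNNReal_strictMono (HeightOneSpectrum.one_lt_absNorm_nnreal v)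
  have h4 := hmono.monotone h
  rw [fv_eq]
  have h6 : WithZeroMulInt.toNNReal (HeightOneSpectrum.absNorm_ne_zero v)
      (WithZero.exp (-(m : ℤ))) = ((Ideal.absNorm v.asIdeal : NNReal) ^ m)⁻¹ := by
    rw [WithZeroMulInt.toNNReal_neg_apply _ WithZero.exp_ne_zero]
    have h7 : (WithZero.unzero (WithZero.exp_ne_zero (a := (-(m : ℤ))))).toAdd =
      -(m : ℤ) := rfl
    rw [h7, zpow_neg, zpow_natCast]
  rw [h6] at h4
  have h8 := NNReal.coe_le_coe.2 h4
  push_cast at h8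
  exact h8

lemma le_lamF {A : Type} [CommRing A] {s : ℕ} (z : Fin (s + 1) → A) {L : Type}
    [Field L] [NumberField L] (φ : A →+* L) (v : HeightOneSpectrum (𝓞 L)) (hz : φ (z 0) ≠ 0)
    (m : ℕ) (h : ∀ i, v.valuation L (φ (z i)) ≤ WithZero.exp (-(m : ℤ))) :
    (m : ℝ) * Real.log (Ideal.absNorm v.asIdeal) ≤ lamF z φ v := by
  have hb : BddAbove (Set.range fun i => fv v (φ (z i))) := (Set.finite_range _).bddAbove
  have h1 : fv v (φ (z 0)) ≤ ⨆ i, fv v (φ (z i)) := le_ciSup hb 0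
  have h2 : 0 < ⨆ i, fv v (φ (z i)) := ((fv v).pos hz).trans_le h1
  have h3 : (⨆ i, fv v (φ (z i))) ≤ ((Ideal.absNorm v.asIdeal : ℝ) ^ m)⁻¹ :=
    ciSup_le fun i => fv_le_pow v _ m (h i)
  have h4 := Real.log_le_log h2 h3
  rw [Real.log_inv, Real.log_pow] at h4
  refine le_trans ?_ (le_max_right _ _)
  linarith

lemma val_lt_one_iff {L : Type} [Field L] [NumberField L] (v : HeightOneSpectrum (𝓞 L)) (y : L)
    (h : v.valuation L y < 1) : v.valuation L y ≤ WithZero.exp (-((1 : ℕ) : ℤ)) := by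
  rcases eq_or_ne (v.valuation L y) 0 with h0 | h0
  · rw [h0]; exact zero_le
  · obtain ⟨k, hk⟩ : ∃ k : ℤ, v.valuation L y = WithZero.exp k :=
      ⟨WithZero.log (v.valuation L y), (WithZero.exp_log h0).symm⟩
    rw [hk] at h ⊢
    rw [← WithZero.exp_zero, WithZero.exp_lt_exp] at h
    rw [WithZero.exp_le_exp]
    push_cast
    omega

lemma NearP.le_lamF {A : Type} [CommRing A] [Algebra ℚ[X] A] {s : ℕ} (z : Fin (s + 1) → A)
    {L : Type} [Field L] [NumberField L] (φ : A →+* L) (v : HeightOneSpectrum (𝓞 L))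
    (hz : φ (z 0) ≠ 0) (h : NearP z φ v) :
    Real.log (Ideal.absNorm v.asIdeal) ≤ lamF z φ v := by
  have := Pool.Agent.W223.AC.le_lamF z φ v hz 1 fun i => val_lt_one_iff v _ (h.2 i)
  rwa [Nat.cast_one, one_mul] at this

/-- points near the zeros of `τ` are near one of the pieces -/
theorem nearN (hM : StmtMULT) (hL : StmtLOC) (A : Type) [CommRing A] [Algebra ℚ[X] A]
    [Module.Finite ℚ[X] A] (τ : A) (n : ℕ) (s : Fin n → ℕ) (z : ∀ l, Fin (s l + 1) → A)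
    (J : Finset (Fin n)) (hJ : ∏ l ∈ J, Ideal.span (Set.range (z l)) ≤ (Ideal.span {τ}).radical) :
    ∃ M : ℕ, M ≠ 0 ∧ ∀ (L : Type) [Field L] [NumberField L] (φ : A →+* L)
      (v : HeightOneSpectrum (𝓞 L)), (M : 𝓞 L) ∉ v.asIdeal → v.valuation L (φ (tt A)) ≤ 1 →
      v.valuation L (φ τ) < 1 →
      ∃ l ∈ J, ∀ i, v.valuation L (φ (z l i)) < 1 := by
  classical
  have h1 : ∀ i : (∀ l : Fin n, Fin (s l + 1)), ∃ (m : ℕ) (b : A) (N : ℕ), N ≠ 0 ∧
      IntEl ((N : A) * b) ∧ (∏ l ∈ J, z l (i l)) ^ m = τ * b := by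
    intro i
    have h2 : ∏ l ∈ J, z l (i l) ∈ (Ideal.span {τ}).radical :=
      hJ (Ideal.prod_mem_prod fun l _ => Ideal.subset_span ⟨i l, rfl⟩)
    obtain ⟨m, hm⟩ := h2
    obtain ⟨b, hb⟩ := Ideal.mem_span_singleton'.mp hm
    obtain ⟨N, hN, hi⟩ := hM A b
    exact ⟨m, b, N, hN, hi, by rw [← hb, mul_comm]⟩
  choose m b N hN hi hb using h1
  refine ⟨∏ i, N i, Finset.prod_ne_zero_iff.mpr fun i _ => hN i, ?_⟩
  intro L _ _ φ v hv ht hτ
  by_contra hcon
  push Not at hcon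
  have h2 : ∀ l, ∃ i, l ∈ J → 1 ≤ v.valuation L (φ (z l i)) := by
    intro l
    by_cases hl : l ∈ J
    · obtain ⟨i, hi⟩ := hcon l hl
      exact ⟨i, fun _ => hi⟩
    · exact ⟨0, fun h => absurd h hl⟩
  choose i hi2 using h2
  have h4 : (N i : 𝓞 L) ∉ v.asIdeal := by
    intro h5
    apply hv
    obtain ⟨c, hc⟩ := Finset.dvd_prod_of_mem (fun i => N i) (Finset.mem_univ i)
    rw [hc]
    push_cast
    exact Ideal.mul_mem_right _ _ h5
  have h5 := hL A _ (hi i) L φ v ht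
  rw [map_mul, map_mul, map_natCast, val_nat_eq_one v _ h4, one_mul] at h5
  have h6 : 1 ≤ v.valuation L (φ ((∏ l ∈ J, z l (i l)) ^ m i)) := by
    rw [map_pow, map_pow, map_prod, map_prod]
    refine one_le_pow₀ ?_
    exact Finset.one_le_prod' fun l hl => hi2 l hl
  rw [hb i, map_mul, map_mul] at h6
  have h7 : v.valuation L (φ τ) * v.valuation L (φ (b i)) < 1 := by
    calc v.valuation L (φ τ) * v.valuation L (φ (b i)) ≤ v.valuation L (φ τ) * 1 :=
          mul_le_mul_right h5 _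
      _ < 1 := by rw [mul_one]; exact hτ
  exact absurd h6 (not_le.mpr h7)

theorem keyG (hNBP : StmtNBP) (hMU : StmtMULT) (hLO : StmtLOC)
    (A : Type) [CommRing A] [IsDedekindDomain A] [Algebra ℚ A] [Algebra ℚ[X] A]
    [IsScalarTower ℚ ℚ[X] A] [Module.Finite ℚ[X] A] [FaithfulSMul ℚ[X] A]
    {q : ℕ} (a : Fin q → ℚ) {n : ℕ} (j : Fin n → Fin q) (s : Fin n → ℕ)
    (z : ∀ l, Fin (s l + 1) → A)
    (hz : ∀ l, z l 0 = tt A - algebraMap ℚ[X] A (C (a (j l))))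
    (hcov : ∀ k : Fin q, ∏ l with j l = k, Ideal.span (Set.range (z l)) ≤
      (Ideal.span {tt A - algebraMap ℚ[X] A (C (a k))}).radical)
    (ε : ℝ) (hε : 0 < ε) :
    ∃ (M : ℕ) (C : ℝ) (G : ℚ[X]), M ≠ 0 ∧ 0 ≤ C ∧ G ≠ 0 ∧
      ∀ (L : Type) [Field L] [NumberField L] (φ : A →+* L),
        aeval (φ (tt A)) G ≠ 0 → (∀ k, φ (tt A) ≠ (a k : L)) →
        (∀ S : Finset ℕ, cnt (S ∪ M.primeFactors) (fun k => pt (a k)) (φ (tt A)) ≤
          cc S (fun v : HeightOneSpectrum (𝓞 L) => ∃ l ∈ (Finset.univ : Finset (Fin n)),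
            NearP (z l) φ v)) ∧
        ∀ l, {v : HeightOneSpectrum (𝓞 L) | lamF (z l) φ v ≠ 0}.Finite ∧
          (∑ᶠ v : HeightOneSpectrum (𝓞 L), lamF (z l) φ v) +
            ∑ w : InfinitePlace L, (w.mult : ℝ) * lamI (z l) φ w ≤
          ((Module.finrank ℚ (A ⧸ Ideal.span (Set.range (z l))) : ℝ) /
            Module.finrank ℚ[X] A + ε) *
            Real.log (Height.mulHeight₁ (φ (tt A))) + Module.finrank ℚ L * C := by
  classical
  have hNB' := fun l => hNBP A (a (j l)) (s l) (z l) (hz l) ε hε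
  choose C₁ G₁ hC₁ hG₁ hNB'' using hNB'
  have hNE := fun k => nearN hMU hLO A (tt A - algebraMap ℚ[X] A (C (a k))) n s z
    (Finset.univ.filter fun l => j l = k) (hcov k)
  choose M₂ hM₂ hNE' using hNE
  refine ⟨∏ k, (M₂ k * (a k).den), ∑ l, C₁ l, ∏ l, G₁ l,
    Finset.prod_ne_zero_iff.mpr fun k _ => mul_ne_zero (hM₂ k) (a k).den_nz,
    Finset.sum_nonneg fun l _ => hC₁ l,
    Finset.prod_ne_zero_iff.mpr fun l _ => hG₁ l, ?_⟩
  intro L _ _ φ hG hne
  set x := φ (tt A) with hx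
  set M := ∏ k, (M₂ k * (a k).den) with hM
  have hM0 : M ≠ 0 := Finset.prod_ne_zero_iff.mpr fun k _ => mul_ne_zero (hM₂ k) (a k).den_nz
  have hGl : ∀ l, aeval x (G₁ l) ≠ 0 := by
    intro l
    rw [map_prod, Finset.prod_ne_zero_iff] at hG
    exact hG l (Finset.mem_univ l)
  have hφa : ∀ k, φ (tt A - algebraMap ℚ[X] A (C (a k))) = x - (a k : L) := by
    intro k
    rw [map_sub, hx]
    congr 1
    exact eq_ratCast (φ.comp ((algebraMap ℚ[X] A).comp C)) (a k)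
  have hxa : ∀ k, x - (a k : L) ≠ 0 := fun k => sub_ne_zero.mpr (hne k)
  have hz0 : ∀ l, φ (z l 0) ≠ 0 := by
    intro l
    rw [hz l, hφa]
    exact hxa _
  have hfinP : ∀ l, {v : HeightOneSpectrum (𝓞 L) | NearP (z l) φ v}.Finite := fun l =>
    (val_finite _ (hz0 l)).subset fun v hv => hv.2 0
  refine ⟨fun S => ?_, fun l => ?_⟩
  · have hSM : ∀ v : HeightOneSpectrum (𝓞 L),
        (∀ p ∈ S ∪ M.primeFactors, (p : 𝓞 L) ∉ v.asIdeal) → (M : 𝓞 L) ∉ v.asIdeal :=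
      fun v hv => not_mem_of_primes hM0 fun p hp => hv p (Finset.mem_union_right _ hp)
    rw [cnt_eq]
    refine cc_mono Finset.subset_union_left ?_ ?_
    · refine (Set.finite_iUnion fun l => hfinP l).subset ?_
      rintro v ⟨l, -, hv⟩
      exact Set.mem_iUnion.mpr ⟨l, hv⟩
    · rintro v hv ⟨k, -, hn⟩
      have hMv := hSM v hv
      have hdiv : M₂ k * (a k).den ∣ M :=
        Finset.dvd_prod_of_mem (fun k => M₂ k * (a k).den) (Finset.mem_univ k)
      have hdv : (((a k).den : ℕ) : 𝓞 L) ∉ v.asIdeal :=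
        not_mem_of_dvd ((Dvd.intro_left _ rfl).trans hdiv) hMv
      have hM2v : ((M₂ k : ℕ) : 𝓞 L) ∉ v.asIdeal :=
        not_mem_of_dvd ((Dvd.intro _ rfl).trans hdiv) hMv
      obtain ⟨h2, h3⟩ := near_pt (a k) x v hdv hn
      obtain ⟨l, -, h5⟩ := hNE' k L φ v hM2v h2 (by rw [hφa]; exact h3)
      exact ⟨l, Finset.mem_univ l, h2, h5⟩
  · obtain ⟨h1, h2⟩ := hNB'' l L φ (hGl l) (hz0 l)
    refine ⟨h1, h2.trans ?_⟩
    have h3 : C₁ l ≤ ∑ l, C₁ l := Finset.single_le_sum (fun l _ => hC₁ l) (Finset.mem_univ l)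
    have h4 : (0 : ℝ) ≤ Module.finrank ℚ L := Nat.cast_nonneg _
    have := mul_le_mul_of_nonneg_left h3 h4
    linarith

end Pool.Agent.W223.AC
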