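import Mathlib
import Pool.Agent.W223.AC.KeyG

/-!
# Truncated counting functions, proximity functions and heights
-/

set_option autoImplicit false

namespace Pool.Agent.W223.AC

open Polynomial IsDedekindDomain NumberField
open Pool.Agent.W223.CV
open Pool.Agent.W125.CV (fv fv_eq)

variable {A : Type} [CommRing A] [Algebra ℚ[X] A] {s : ℕ} (z : Fin (s + 1) → A)
  {L : Type} [Field L] [NumberField L] (φ : A →+* L)

lemma near_finite (hz : φ (z 0) ≠ 0) : {v : HeightOneSpectrum (𝓞 L) | NearP z φ v}.Finite :=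
  (val_finite _ hz).subset fun _ hv => hv.2 0

open Classical in
/-- the sum of the local heights above `S` -/
noncomputable def mS (S : Finset ℕ) {A : Type} [CommRing A] {s : ℕ} (z : Fin (s + 1) → A)
    {L : Type} [Field L] [NumberField L] (φ : A →+* L) : ℝ :=
  ∑ᶠ v : HeightOneSpectrum (𝓞 L), if ∃ p ∈ S, (p : 𝓞 L) ∈ v.asIdeal then lamF z φ v else 0

open Classical in
lemma split_prox (S : Finset ℕ) (hz : φ (z 0) ≠ 0)
    (hf : {v : HeightOneSpectrum (𝓞 L) | lamF z φ v ≠ 0}.Finite) :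
    cc S (fun v : HeightOneSpectrum (𝓞 L) => NearP z φ v) + mS S z φ ≤
      ∑ᶠ v : HeightOneSpectrum (𝓞 L), lamF z φ v := by
  have h1 : Function.HasFiniteSupport (ct S (fun v : HeightOneSpectrum (𝓞 L) => NearP z φ v)) :=
    ct_support S (near_finite z φ hz)
  have h2 : (Function.support fun v : HeightOneSpectrum (𝓞 L) =>
      if ∃ p ∈ S, (p : 𝓞 L) ∈ v.asIdeal then lamF z φ v else 0).Finite := by
    refine hf.subset fun v hv => ?_
    rw [Function.mem_support] at hv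
    intro h
    apply hv
    rw [h, ite_self]
  unfold cc mS
  rw [← finsum_add_distrib h1 h2]
  refine finsum_le_finsum' ?_ hf ?_
  · exact Set.Finite.subset (h1.union h2) (Function.support_add _ _)
  · intro v
    show ct S (fun v : HeightOneSpectrum (𝓞 L) => NearP z φ v) v +
      (if ∃ p ∈ S, (p : 𝓞 L) ∈ v.asIdeal then lamF z φ v else 0) ≤ lamF z φ v
    by_cases h : ∃ p ∈ S, (p : 𝓞 L) ∈ v.asIdeal
    · rw [if_pos h, ct_neg, zero_add]
      rintro ⟨h3, -⟩
      obtain ⟨p, hp, hpv⟩ := h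
      exact h3 p hp hpv
    · rw [if_neg h, add_zero]
      by_cases h3 : (∀ p ∈ S, (p : 𝓞 L) ∉ v.asIdeal) ∧ NearP z φ v
      · rw [ct_pos h3]
        exact h3.2.le_lamF z φ v hz
      · rw [ct_neg h3]
        exact lamF_nonneg z φ v

lemma split_order (S : Finset ℕ) (hz : φ (z 0) ≠ 0)
    (hf : {v : HeightOneSpectrum (𝓞 L) | lamF z φ v ≠ 0}.Finite) (e : ℕ)
    (he : ∀ v : HeightOneSpectrum (𝓞 L), (∀ p ∈ S, (p : 𝓞 L) ∉ v.asIdeal) → NearP z φ v →
      ∀ i, v.valuation L (φ (z i)) ≤ WithZero.exp (-(e : ℤ))) :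
    (e : ℝ) * cc S (fun v : HeightOneSpectrum (𝓞 L) => NearP z φ v) ≤
      ∑ᶠ v : HeightOneSpectrum (𝓞 L), lamF z φ v := by
  have h1 : Function.HasFiniteSupport (ct S (fun v : HeightOneSpectrum (𝓞 L) => NearP z φ v)) :=
    ct_support S (near_finite z φ hz)
  unfold cc
  rw [mul_finsum' _ _ h1]
  refine finsum_le_finsum' ?_ hf ?_
  · refine Set.Finite.subset h1 fun v hv => ?_
    rw [Function.mem_support] at hv ⊢
    intro h
    apply hv
    show (e : ℝ) * ct S (fun v : HeightOneSpectrum (𝓞 L) => NearP z φ v) v = 0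
    rw [h, mul_zero]
  · intro v
    show (e : ℝ) * ct S (fun v : HeightOneSpectrum (𝓞 L) => NearP z φ v) v ≤ lamF z φ v
    by_cases h3 : (∀ p ∈ S, (p : 𝓞 L) ∉ v.asIdeal) ∧ NearP z φ v
    · rw [ct_pos h3]
      exact le_lamF z φ v hz e (he v h3.1 h3.2)
    · rw [ct_neg h3, mul_zero]
      exact lamF_nonneg z φ v

end Pool.Agent.W223.AC

namespace Pool.Agent.W223.AC

open Polynomial IsDedekindDomain NumberField
open Pool.Agent.W223.CV
open Pool.Agent.W125.CV (fv fv_eq)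

variable {L : Type} [Field L] [NumberField L]

lemma log_height_nat (n : ℕ) (hn : n ≠ 0) :
    Real.log (Height.mulHeight₁ (n : L)) = Module.finrank ℚ L * Real.log n := by
  classical
  have h1 := Pool.Agent.W125.CV.height_sum (n : L)
    (Pool.Agent.W125.CV.max_support_finite (n : L)).toFinset
    (fun v hv => (Set.Finite.mem_toFinset _).2 hv)
  have h2 : ∀ v : HeightOneSpectrum (𝓞 L), max (fv v (n : L)) 1 = 1 := by
    intro v
    refine max_eq_right ?_
    have := Pool.Agent.W125.CV.fv_int v (n : ℤ)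
    simpa using this
  have h3 : ∀ w : InfinitePlace L, max (w (n : L)) 1 = n := by
    intro w
    have : w (n : L) = n := by
      rw [← InfinitePlace.norm_embedding_eq w, map_natCast, Complex.norm_natCast]
    rw [this]
    exact max_eq_left (by exact_mod_cast Nat.one_le_iff_ne_zero.mpr hn)
  rw [h1]
  simp only [h2, h3, Real.log_one, Finset.sum_const_zero, add_zero]
  rw [← Finset.sum_mul]
  congr 1
  exact_mod_cast InfinitePlace.sum_mult_eq (K := L)

/-- the primes above `S` -/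
lemma cc_above (hSU : StmtSUMN) (S : Finset ℕ) (hS : ∀ p ∈ S, p.Prime) :
    cc ∅ (fun v : HeightOneSpectrum (𝓞 L) => ∃ p ∈ S, (p : 𝓞 L) ∈ v.asIdeal) ≤
      Module.finrank ℚ L * ∑ p ∈ S, Real.log p := by
  have h0 : ∏ p ∈ S, p ≠ 0 := Finset.prod_ne_zero_iff.mpr fun p hp => (hS p hp).ne_zero
  have h1 := hSU L ∅ (fun v : HeightOneSpectrum (𝓞 L) => ∃ p ∈ S, (p : 𝓞 L) ∈ v.asIdeal)
    ((∏ p ∈ S, p : ℕ) : L) 1 (by exact_mod_cast h0) (le_refl 1) (by
      rintro v - ⟨p, hp, hpv⟩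
      apply val_lt_one_iff
      have h2 : ((∏ p ∈ S, p : ℕ) : 𝓞 L) ∈ v.asIdeal := by
        obtain ⟨c, hc⟩ := Finset.dvd_prod_of_mem (fun p => p) hp
        rw [hc]
        push_cast
        exact Ideal.mul_mem_right _ _ hpv
      have h3 : v.valuation L (((∏ p ∈ S, p : ℕ) : 𝓞 L) : L) < 1 :=
        (v.valuation_lt_one_iff_mem _).mpr h2
      have h4 : (((∏ p ∈ S, p : ℕ) : 𝓞 L) : L) = ((∏ p ∈ S, p : ℕ) : L) := by
        simp
      rwa [h4] at h3)
  rw [Nat.cast_one, one_mul, log_height_nat _ h0] at h1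
  refine h1.trans (le_of_eq ?_)
  push_cast
  rw [Real.log_prod fun p hp => by exact_mod_cast (hS p hp).ne_zero]

/-- reduction to the primes outside `S` -/
lemma cc_outside (hSU : StmtSUMN) (S : Finset ℕ) (hS : ∀ p ∈ S, p.Prime)
    (Q : HeightOneSpectrum (𝓞 L) → Prop) (hQ : {v | Q v}.Finite) :
    cc ∅ Q ≤ cc S Q + Module.finrank ℚ L * ∑ p ∈ S, Real.log p := by
  classical
  have hfin : {v : HeightOneSpectrum (𝓞 L) | ∃ p ∈ S, (p : 𝓞 L) ∈ v.asIdeal}.Finite := by
    have h0 : ((∏ p ∈ S, p : ℕ) : L) ≠ 0 := by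
      exact_mod_cast Finset.prod_ne_zero_iff.mpr fun p hp => (hS p hp).ne_zero
    refine (val_finite _ h0).subset ?_
    rintro v ⟨p, hp, hpv⟩
    have h2 : ((∏ p ∈ S, p : ℕ) : 𝓞 L) ∈ v.asIdeal := by
      obtain ⟨c, hc⟩ := Finset.dvd_prod_of_mem (fun p => p) hp
      rw [hc]
      push_cast
      exact Ideal.mul_mem_right _ _ hpv
    have h3 : v.valuation L (((∏ p ∈ S, p : ℕ) : 𝓞 L) : L) < 1 :=
        (v.valuation_lt_one_iff_mem _).mpr h2
    have h4 : (((∏ p ∈ S, p : ℕ) : 𝓞 L) : L) = ((∏ p ∈ S, p : ℕ) : L) := by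
      simp
    rwa [h4] at h3
  have h1 := cc_above (L := L) hSU S hS
  have h2 : cc ∅ Q ≤ cc S Q +
      cc ∅ (fun v : HeightOneSpectrum (𝓞 L) => ∃ p ∈ S, (p : 𝓞 L) ∈ v.asIdeal) := by
    unfold cc
    rw [← finsum_add_distrib (ct_support S hQ) (ct_support ∅ hfin)]
    refine finsum_le_finsum' (ct_support ∅ hQ) ?_ ?_
    · exact Set.Finite.subset ((ct_support S hQ).union (ct_support ∅ hfin))
        (Function.support_add _ _)
    · intro v
      show ct ∅ Q v ≤ ct S Q v +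
        ct ∅ (fun v : HeightOneSpectrum (𝓞 L) => ∃ p ∈ S, (p : 𝓞 L) ∈ v.asIdeal) v
      by_cases h3 : Q v
      · rw [ct_pos ⟨fun p hp => absurd hp (Finset.notMem_empty p), h3⟩]
        by_cases h4 : ∃ p ∈ S, (p : 𝓞 L) ∈ v.asIdeal
        · have h5 : ct ∅ (fun v : HeightOneSpectrum (𝓞 L) => ∃ p ∈ S, (p : 𝓞 L) ∈ v.asIdeal) v =
              Real.log (Ideal.absNorm v.asIdeal) :=
            ct_pos ⟨fun p hp => absurd hp (Finset.notMem_empty p), h4⟩
          rw [h5]
          linarith [ct_nonneg S Q v]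
        · push Not at h4
          rw [ct_pos (S := S) ⟨h4, h3⟩]
          linarith [ct_nonneg ∅
            (fun v : HeightOneSpectrum (𝓞 L) => ∃ p ∈ S, (p : 𝓞 L) ∈ v.asIdeal) v]
      · rw [ct_neg (S := ∅) fun h => h3 h.2]
        exact add_nonneg (ct_nonneg _ _ _) (ct_nonneg _ _ _)
  linarith

end Pool.Agent.W223.AC
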