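import Mathlib
import Pool.Agent.W223.AC.StmsP
import Pool.Agent.W736.AC.MOBH
import Pool.Agent.W337.AC.MOBC
import Pool.Agent.W469.CV.REL
import Pool.Agent.Results.MP_f5a5f7_nt.FewExceptions
import Pool.Agent.W469.CV.MH

/-!
# The inequality for the values of a function in a fixed number field, over all its extensions
-/

set_option autoImplicit false

namespace Pool.Agent.W223.AC.MK

open Polynomial IsDedekindDomain NumberField
open Pool.Agent.W223.VD (cnt)
open Pool.Agent.W223.AC
open Pool.Agent.W125.CV (fv fv_eq max_support_finite height_sum)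
open Pool.Agent.Results.MP_f5a5f7_nt.FewExceptions (height)

/-- the conductor -/
noncomputable abbrev cnd {K : Type} [Field K] [NumberField K] (x : K) : ℝ :=
  Pool.Agent.Results.MP_f5a5f7_nt.FewExceptions.cond x

variable {K : Type} [Field K] [NumberField K]

lemma height_eq (x : K) :
    Real.log (Height.mulHeight₁ x) = Module.finrank ℚ K * height x := by
  classical
  have hd : (Module.finrank ℚ K : ℝ) ≠ 0 := by exact_mod_cast Module.finrank_pos.ne'
  set T := (max_support_finite x).toFinset with hT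
  have hT1 : ∀ v, max (fv v x) 1 ≠ 1 → v ∈ T := fun v hv => (Set.Finite.mem_toFinset _).2 hv
  rw [height_sum x T hT1]
  unfold height
  rw [← mul_assoc, mul_one_div, div_self hd, one_mul,
    finsum_eq_sum_of_support_subset (s := T)]
  · congr 1
    · refine Finset.sum_congr rfl fun w _ => ?_
      rw [max_comm]
    · refine Finset.sum_congr rfl fun v _ => ?_
      rw [max_comm]
      rfl
  · intro v hv
    refine hT1 v fun h => ?_
    rw [Function.mem_support] at hv
    apply hv
    have h1 : max 1 (FinitePlace.mk v x) = max (fv v x) 1 := by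
      rw [max_comm]
      rfl
    show Real.log (max 1 (FinitePlace.mk v x)) = 0
    rw [h1, h, Real.log_one]

open Pool.Agent.H58P (Qb ht) in
lemma log_height_ext (L : Type) [Field L] [NumberField L] [Algebra K L] (x : K) :
    Real.log (Height.mulHeight₁ (algebraMap K L x)) =
      Module.finrank K L * Real.log (Height.mulHeight₁ x) := by
  let φ : L →+* Qb := ((IsAlgClosed.lift : L →ₐ[ℚ] Qb) : L →+* Qb)
  have h1 := Pool.Agent.W469.CV.MH.ht_emb L φ (algebraMap K L x)
  have h2 := Pool.Agent.W469.CV.MH.ht_emb K (φ.comp (algebraMap K L)) x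
  have h3 : ht (φ (algebraMap K L x)) = ht ((φ.comp (algebraMap K L)) x) := rfl
  rw [h1, h2] at h3
  have hK : (0 : ℝ) < Module.finrank ℚ K := by exact_mod_cast Module.finrank_pos
  have hL : (0 : ℝ) < Module.finrank ℚ L := by exact_mod_cast Module.finrank_pos
  have htow : (Module.finrank ℚ L : ℝ) = Module.finrank ℚ K * Module.finrank K L := by
    exact_mod_cast (Module.finrank_mul_finrank ℚ K L).symm
  rw [div_eq_div_iff hL.ne' hK.ne', htow] at h3
  have h4 : Real.log (Height.mulHeight₁ (algebraMap K L x)) * Module.finrank ℚ K =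
      Module.finrank K L * Real.log (Height.mulHeight₁ x) * Module.finrank ℚ K := by
    rw [h3]; ring
  exact mul_right_cancel₀ hK.ne' h4

/-- the exceptional values -/
def exc (K : Type) [Field K] [NumberField K] (S : Finset ℕ) (a : Fin 3 → ℚ) (κ C₀ B : ℝ)
    (G : ℚ[X]) : Set K :=
  {x | Real.exp (height x) ≤ B ∧ (aeval x G = 0 ∨ (∃ j, x = (a j : K)) ∨
    ∃ (L : Type) (_ : Field L) (_ : NumberField L) (_ : Algebra K L),
      cnt S (fun j => pt (a j)) (algebraMap K L x) / Module.finrank ℚ L +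
        Real.log |(discr L : ℝ)| / Module.finrank ℚ L + C₀ < (3 - κ) * height x)}

lemma mob_zero (a : Fin 3 → ℚ) (ha : Function.Injective a) (x : K) (hx : ∀ j, x ≠ (a j : K)) :
    mob a x ≠ 0 ∧ mob a x ≠ 1 := by
  have inj : ∀ i j, i ≠ j → (a i : K) - a j ≠ 0 := by
    intro i j hij h
    have h1 : (a i : K) = a j := sub_eq_zero.1 h
    exact hij (ha (by exact_mod_cast h1))
  have h12 := inj 1 2 (by decide)
  have h10 := inj 1 0 (by decide)
  have h20 := inj 2 0 (by decide)
  have hx0 : x - a 0 ≠ 0 := sub_ne_zero.2 (hx 0)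
  have hx1 : x - a 1 ≠ 0 := sub_ne_zero.2 (hx 1)
  have hx2 : x - a 2 ≠ 0 := sub_ne_zero.2 (hx 2)
  unfold mob
  refine ⟨div_ne_zero (mul_ne_zero hx0 h12) (mul_ne_zero hx2 h10), fun h => ?_⟩
  rw [div_eq_one_iff_eq (mul_ne_zero hx2 h10)] at h
  have h2 : (x - a 1) * ((a 2 : K) - a 0) = 0 := by linear_combination -h
  rcases mul_eq_zero.mp h2 with h3 | h3
  · exact hx1 h3
  · exact h20 h3

lemma mob_inj (a : Fin 3 → ℚ) (ha : Function.Injective a) (x y : K) (hx : ∀ j, x ≠ (a j : K))
    (hy : ∀ j, y ≠ (a j : K)) (h : mob a x = mob a y) : x = y := by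
  have inj : ∀ i j, i ≠ j → (a i : K) - a j ≠ 0 := by
    intro i j hij h
    have h1 : (a i : K) = a j := sub_eq_zero.1 h
    exact hij (ha (by exact_mod_cast h1))
  have h12 := inj 1 2 (by decide)
  have h10 := inj 1 0 (by decide)
  have h20 := inj 2 0 (by decide)
  have hx2 : x - a 2 ≠ 0 := sub_ne_zero.2 (hx 2)
  have hy2 : y - a 2 ≠ 0 := sub_ne_zero.2 (hy 2)
  unfold mob at h
  rw [div_eq_div_iff (mul_ne_zero hx2 h10) (mul_ne_zero hy2 h10)] at h
  have h2 : (x - y) * (((a 2 : K) - a 0) * ((a 1 : K) - a 2) * ((a 1 : K) - a 0)) = 0 := by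
    linear_combination -h
  rcases mul_eq_zero.mp h2 with h3 | h3
  · exact sub_eq_zero.mp h3
  · exact absurd h3 (mul_ne_zero (mul_ne_zero h20 h12) h10)

theorem master (K : Type) [Field K] [NumberField K] (a : Fin 3 → ℚ) (ha : Function.Injective a)
    (κ δ : ℝ) (hκ : 2 < κ) (hκ3 : κ < 3) (hδ : 0 < δ) : ∃ ε : ℝ, 0 < ε ∧
    ∀ S : Finset ℕ, (∀ p ∈ S, p.Prime) → ∀ (C₀ : ℝ) (G : ℚ[X]), G ≠ 0 →
    ∃ C : ℝ, ∀ B : ℝ, 1 ≤ B → (exc K S a (κ - ε) C₀ B G).Finite ∧
      ((exc K S a (κ - ε) C₀ B G).ncard : ℝ) ≤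
        C * B ^ ((Module.finrank ℚ K : ℝ) * min (4 * (3 - κ) / 7) (20 / 37) + δ) := by
  classical
  set d : ℝ := (Module.finrank ℚ K : ℝ) with hd
  have hd1 : 1 ≤ d := by
    rw [hd]
    exact_mod_cast Nat.one_le_iff_ne_zero.mpr Module.finrank_pos.ne'
  have hd0 : 0 < d := by linarith
  obtain ⟨ε, hεd⟩ : ∃ ε, ε = min ((κ - 2) / 2) (δ / (2 * d)) := ⟨_, rfl⟩
  have hε : 0 < ε := by
    rw [hεd]
    exact lt_min (by linarith) (by positivity)
  have hε1 : ε ≤ (κ - 2) / 2 := by rw [hεd]; exact min_le_left _ _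
  have hε2 : ε ≤ δ / (2 * d) := by rw [hεd]; exact min_le_right _ _
  refine ⟨ε, hε, ?_⟩
  intro S hS C₀ G hG
  obtain ⟨CH, hCH, hH⟩ := Pool.Agent.W736.AC.t K a ha
  obtain ⟨CC, hCC, hC⟩ := Pool.Agent.W337.AC.MOBC.t K a ha S hS
  set s : ℝ := 3 - (κ - ε) with hs
  have hs0 : 0 < s := by rw [hs]; linarith
  have hs1 : s < 1 := by rw [hs]; linarith
  set κ' : ℝ := 1 / s with hκ'
  have hκ'1 : 1 < κ' := by rw [hκ', one_lt_div hs0]; exact hs1
  -- the constants
  set c : ℝ := |CC / d + CH / d + (-C₀)| / s with hc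
  obtain ⟨C, hB⟩ := Pool.Agent.Results.MP_f5a5f7_nt.FewExceptions.result K κ' c (δ / 2) hκ'1
    (by linarith)
  have hfinG : {x : K | aeval x G = 0}.Finite := by
    refine (Polynomial.rootSet_finite G K).subset fun x hx => ?_
    exact (Polynomial.mem_rootSet_of_ne hG).mpr hx
  have hfina : (Set.range fun j => (a j : K)).Finite := Set.finite_range _
  set F : Set K := {x : K | aeval x G = 0} ∪ Set.range fun j => (a j : K) with hF
  have hFfin : F.Finite := hfinG.union hfina
  set B' : ℝ → ℝ := fun B => B * Real.exp (CH / d) with hB'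
  refine ⟨F.ncard + max C 0 * Real.exp (CH / d) ^ (d * min (4 / (7 * κ')) (20 / 37) + δ / 2),
    fun B hB1 => ?_⟩
  have he1 : 1 ≤ Real.exp (CH / d) := Real.one_le_exp (by positivity)
  have hB'1 : 1 ≤ B' B := one_le_mul_of_one_le_of_one_le hB1 he1
  obtain ⟨h1, h2⟩ := hB (B' B) hB'1
  set E := Pool.Agent.Results.MP_f5a5f7_nt.FewExceptions.exceptional K κ' c (B' B) with hE
  -- the part outside `F` is mapped to `E`
  have hmaps : ∀ x ∈ exc K S a (κ - ε) C₀ B G \ F, mob a x ∈ E := by
    rintro x ⟨⟨hxB, hor⟩, hxF⟩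
    have hxG : aeval x G ≠ 0 := fun h => hxF (Or.inl h)
    have hxa : ∀ j, x ≠ (a j : K) := fun j h => hxF (Or.inr ⟨j, h.symm⟩)
    rcases hor with h | ⟨j, h⟩ | ⟨L, hF', hN, hAl, hv⟩
    · exact absurd h hxG
    · exact absurd h (hxa j)
    obtain ⟨hm0, hm1⟩ := mob_zero a ha x hxa
    obtain ⟨hH1, hH2⟩ := hH x hxa
    have hC1 := hC x hxa
    rw [height_eq, height_eq] at hH1 hH2
    refine ⟨hm0, hm1, ?_, ?_⟩
    · have h3 : height (mob a x) ≤ height x + CH / d := by
        rw [← sub_le_iff_le_add', le_div_iff₀ hd0]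
        linarith
      refine (Real.exp_le_exp.mpr h3).trans ?_
      rw [Real.exp_add]
      exact mul_le_mul_of_nonneg_right hxB (Real.exp_nonneg _)
    · -- base change
      have hlin : ∀ j, Pool.Agent.W223.CV.lin (pt (a j)) x ≠ 0 := by
        intro j h
        unfold Pool.Agent.W223.CV.lin pt at h
        have h11 : ((a j : ℚ) : K) = (((a j).num : ℤ) : K) / (((a j).den : ℤ) : K) := by
          have := Rat.cast_def (K := K) (a j)
          push_cast
          exact this
        have h12 : (((a j).den : ℤ) : K) ≠ 0 := by exact_mod_cast (a j).den_nz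
        apply hxa j
        rw [h11, eq_div_iff h12]
        exact (sub_eq_zero.mp h).symm
      have hrel := Pool.Agent.W469.CV.REL.t K L 3 S (fun j => pt (a j)) x hlin
      have hLpos : (0 : ℝ) < Module.finrank ℚ L := by exact_mod_cast Module.finrank_pos
      have htow : (Module.finrank ℚ L : ℝ) = d * Module.finrank K L := by
        rw [hd]
        exact_mod_cast (Module.finrank_mul_finrank ℚ K L).symm
      have h4 : (Real.log |(discr K : ℝ)| + cnt S (fun j => pt (a j)) x) / d ≤
          cnt S (fun j => pt (a j)) (algebraMap K L x) / Module.finrank ℚ L +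
          Real.log |(discr L : ℝ)| / Module.finrank ℚ L := by
        rw [← add_div, div_le_div_iff₀ hd0 hLpos, htow]
        have h5 : (Real.log |(discr K : ℝ)| + cnt S (fun j => pt (a j)) x) *
            (d * Module.finrank K L) = (Module.finrank K L * (Real.log |(discr K : ℝ)| +
              cnt S (fun j => pt (a j)) x)) * d := by ring
        rw [h5]
        refine mul_le_mul_of_nonneg_right ?_ hd0.le
        linarith
      have hdisc : 0 ≤ Real.log |(discr K : ℝ)| := by
        refine Real.log_nonneg ?_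
        have := discr_ne_zero K
        exact_mod_cast Int.one_le_abs this
      have h5 : cnd (mob a x) + cnd (mob a x)⁻¹ + cnd (mob a x - 1) ≤
          (cnt S (fun j => pt (a j)) x + CC) / d := by
        rw [le_div_iff₀ hd0, mul_comm]
        exact hC1
      have h6 : cnt S (fun j => pt (a j)) x / d ≤
          (Real.log |(discr K : ℝ)| + cnt S (fun j => pt (a j)) x) / d :=
        div_le_div_of_nonneg_right (by linarith) hd0.le
      have h7 : height x ≤ height (mob a x) + CH / d := by
        rw [← sub_le_iff_le_add', le_div_iff₀ hd0]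
        linarith
      have h8 : cnd (mob a x) + cnd (mob a x)⁻¹ + cnd (mob a x - 1) ≤
          s * height (mob a x) + |CC / d + CH / d + (-C₀)| := by
        have h9 : s * height x ≤ s * height (mob a x) + s * (CH / d) := by
          rw [← mul_add]
          exact mul_le_mul_of_nonneg_left h7 hs0.le
        have h10 : s * (CH / d) ≤ CH / d := by
          have : 0 ≤ CH / d := by positivity
          nlinarith
        have h11 := le_abs_self (CC / d + CH / d + (-C₀))
        rw [add_div] at h5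
        linarith
      rw [hκ', hc, one_div, inv_mul_eq_div, div_le_iff₀ hs0, add_mul, div_mul_cancel₀ _ hs0.ne']
      linarith
  have hinj : Set.InjOn (mob a) (exc K S a (κ - ε) C₀ B G \ F) := by
    intro x hx y hy h
    exact mob_inj a ha x y (fun j h => hx.2 (Or.inr ⟨j, h.symm⟩))
      (fun j h => hy.2 (Or.inr ⟨j, h.symm⟩)) h
  have hfin1 : (exc K S a (κ - ε) C₀ B G \ F).Finite :=
    Set.Finite.of_injOn hmaps hinj h1
  have hsub : exc K S a (κ - ε) C₀ B G ⊆ F ∪ (exc K S a (κ - ε) C₀ B G \ F) := by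
    intro x hx
    by_cases h : x ∈ F
    · exact Or.inl h
    · exact Or.inr ⟨hx, h⟩
  refine ⟨(hFfin.union hfin1).subset hsub, ?_⟩
  have h3 : ((exc K S a (κ - ε) C₀ B G).ncard : ℝ) ≤ F.ncard + E.ncard := by
    have h4 := (Set.ncard_le_ncard hsub (hFfin.union hfin1)).trans (Set.ncard_union_le _ _)
    have h5 := Set.ncard_le_ncard_of_injOn (mob a) hmaps hinj h1
    exact_mod_cast h4.trans (Nat.add_le_add_left h5 _)
  have hmin : min (4 / (7 * κ')) (20 / 37) ≤ min (4 * (3 - κ) / 7) (20 / 37) + ε := by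
    have h4 : 4 / (7 * κ') = 4 * s / 7 := by
      rw [hκ']
      field_simp
    rw [h4, ← min_add_add_right]
    refine min_le_min ?_ (by linarith)
    rw [hs]
    linarith
  have hmin0 : 0 ≤ min (4 / (7 * κ')) (20 / 37) := by
    refine le_min ?_ (by norm_num)
    positivity
  have hexp : d * min (4 / (7 * κ')) (20 / 37) + δ / 2 ≤
      d * min (4 * (3 - κ) / 7) (20 / 37) + δ := by
    have h4 := mul_le_mul_of_nonneg_left hmin hd0.le
    rw [mul_add] at h4
    have h5 : d * ε ≤ δ / 2 := by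
      have := mul_le_mul_of_nonneg_left hε2 hd0.le
      have h6 : d * (δ / (2 * d)) = δ / 2 := by field_simp
      linarith
    linarith
  have hexp0 : 0 ≤ d * min (4 / (7 * κ')) (20 / 37) + δ / 2 := by positivity
  have hB2 : (1 : ℝ) ≤ B ^ (d * min (4 * (3 - κ) / 7) (20 / 37) + δ) :=
    Real.one_le_rpow hB1 (hexp0.trans hexp)
  have hB3 := Real.rpow_le_rpow_of_exponent_le hB1 hexp
  have hB0 : 0 ≤ B := by linarith
  have h8 : C * B' B ^ (d * min (4 / (7 * κ')) (20 / 37) + δ / 2) ≤
      max C 0 * Real.exp (CH / d) ^ (d * min (4 / (7 * κ')) (20 / 37) + δ / 2) *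
        B ^ (d * min (4 * (3 - κ) / 7) (20 / 37) + δ) := by
    rw [hB']
    simp only
    rw [Real.mul_rpow hB0 (Real.exp_nonneg _)]
    calc C * (B ^ (d * min (4 / (7 * κ')) (20 / 37) + δ / 2) *
          Real.exp (CH / d) ^ (d * min (4 / (7 * κ')) (20 / 37) + δ / 2))
        ≤ max C 0 * (B ^ (d * min (4 / (7 * κ')) (20 / 37) + δ / 2) *
          Real.exp (CH / d) ^ (d * min (4 / (7 * κ')) (20 / 37) + δ / 2)) :=
          mul_le_mul_of_nonneg_right (le_max_left _ _) (by positivity)
      _ = max C 0 * Real.exp (CH / d) ^ (d * min (4 / (7 * κ')) (20 / 37) + δ / 2) *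
          B ^ (d * min (4 / (7 * κ')) (20 / 37) + δ / 2) := by ring
      _ ≤ _ := mul_le_mul_of_nonneg_left hB3 (by positivity)
  have h9 : (F.ncard : ℝ) ≤ F.ncard * B ^ (d * min (4 * (3 - κ) / 7) (20 / 37) + δ) :=
    le_mul_of_one_le_right (Nat.cast_nonneg _) hB2
  rw [add_mul]
  exact h3.trans (add_le_add h9 (h2.trans h8))

end Pool.Agent.W223.AC.MK
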